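import Pool.Agent.MP_1e9c11_gt.H69.Dual

/-! The optimal body: compactness, volume and width. -/

open MeasureTheory Set

namespace Pool.Agent.MP_1e9c11_gt.H69

open Pool.Agent.MP_1e9c11_gt.H81

theorem mk3_cont : Continuous mk3 := by
  unfold mk3
  fun_prop

theorem td_of {K : Set E3} (h1 : Convex ℝ K) (h2 : TSym K) : Td (mk3 ⁻¹' K) where
  sym := ⟨fun _ _ _ h => (h2 _ h).1, fun _ _ _ h => (h2 _ h).2.1⟩
  swap _ _ _ h := (h2 _ h).2.2
  conv := h1.is_linear_preimage mk3_lin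

theorem Td.tsym {C : Set R3} (h : Td C) : TSym (co ⁻¹' C) := fun _ hp =>
  ⟨h.sym.flip _ _ _ hp, h.sym.cyc _ _ _ hp, h.swap _ _ _ hp⟩

theorem vol_pre {K : Set E3} (h : IsClosed K) : volume (mk3 ⁻¹' K) = volume K := by
  rw [← mp_co.measure_preimage (h.preimage mk3_cont).measurableSet.nullMeasurableSet]
  congr 1
  ext p
  simp only [mem_preimage, mk3_co]

/-- Four of the twelve images of a half-space. -/
def Out4 (k β x y z : ℝ) : Prop :=
  y + z - k * x ≤ β ∧ -y - z - k * x ≤ β ∧ y - z + k * x ≤ β ∧ -y + z + k * x ≤ β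

/-- The intersection of the images of a half-space. -/
def Out (k β : ℝ) : Set R3 :=
  {r | Out4 k β r.1 r.2.1 r.2.2 ∧ Out4 k β r.2.1 r.2.2 r.1 ∧ Out4 k β r.2.2 r.1 r.2.1}

theorem out_closed (k β : ℝ) : IsClosed (Out k β) := by
  refine IsClosed.and ?_ (IsClosed.and ?_ ?_) <;>
    refine IsClosed.and (isClosed_le ?_ ?_) (IsClosed.and (isClosed_le ?_ ?_)
      (IsClosed.and (isClosed_le ?_ ?_) (isClosed_le ?_ ?_))) <;> fun_prop

theorem out4_comb {k β x y z x' y' z' s t : ℝ} (h : Out4 k β x y z) (h' : Out4 k β x' y' z')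
    (hs : 0 ≤ s) (ht : 0 ≤ t) (e : s + t = 1) :
    Out4 k β (s * x + t * x') (s * y + t * y') (s * z + t * z') := by
  have key : ∀ u v : ℝ, u ≤ β → v ≤ β → s * u + t * v ≤ β := fun u v hu hv => by
    have a1 := mul_le_mul_of_nonneg_left hu hs
    have a2 := mul_le_mul_of_nonneg_left hv ht
    have a3 : s * β + t * β = β := by rw [← add_mul, e, one_mul]
    linarith
  obtain ⟨a1, a2, a3, a4⟩ := h
  obtain ⟨b1, b2, b3, b4⟩ := h'
  exact ⟨by linarith [key _ _ a1 b1], by linarith [key _ _ a2 b2], by linarith [key _ _ a3 b3],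
    by linarith [key _ _ a4 b4]⟩

theorem out_td (k β : ℝ) : Td (Out k β) where
  sym := ⟨fun x y z ⟨⟨a1, a2, a3, a4⟩, ⟨b1, b2, b3, b4⟩, c1, c2, c3, c4⟩ => by
      refine ⟨⟨?_, ?_, ?_, ?_⟩, ⟨?_, ?_, ?_, ?_⟩, ?_, ?_, ?_, ?_⟩ <;> simp only at * <;> linarith,
    fun _ _ _ h => ⟨h.2.1, h.2.2, h.1⟩⟩
  swap x y z := fun ⟨⟨a1, a2, a3, a4⟩, ⟨b1, b2, b3, b4⟩, c1, c2, c3, c4⟩ => by
    refine ⟨⟨?_, ?_, ?_, ?_⟩, ⟨?_, ?_, ?_, ?_⟩, ?_, ?_, ?_, ?_⟩ <;> simp only at * <;> linarith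
  conv _ hp _ hq _ _ hs ht e :=
    ⟨out4_comb hp.1 hq.1 hs ht e, out4_comb hp.2.1 hq.2.1 hs ht e, out4_comb hp.2.2 hq.2.2 hs ht e⟩

theorem out_mem {m β x z : ℝ} (m0 : 0 ≤ m) (m2 : m ≤ 2) (x0 : 0 ≤ x) (hx : x ≤ z)
    (h : z + m * x ≤ β) : (x, x, z) ∈ Out (1 - m) β := by
  have p1 := mul_nonneg m0 x0
  have p2 := mul_nonneg (sub_nonneg.2 m2) (sub_nonneg.2 hx)
  have p3 := mul_nonneg m0 (x0.trans hx)
  have p4 := mul_nonneg (sub_nonneg.2 m2) x0
  refine ⟨⟨?_, ?_, ?_, ?_⟩, ⟨?_, ?_, ?_, ?_⟩, ?_, ?_, ?_, ?_⟩ <;> simp only <;> nlinarith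

theorem body_closed (P : Profile) : IsClosed P.body := isClosed_sInter fun _ h => h.1

theorem body_convex (P : Profile) : Convex ℝ P.body := convex_sInter fun _ h => h.2.1

theorem body_tsym (P : Profile) : TSym P.body := fun p hp =>
  ⟨fun C h => (h.2.2.1 p (hp C h)).1, fun C h => (h.2.2.1 p (hp C h)).2.1,
    fun C h => (h.2.2.1 p (hp C h)).2.2⟩

/-- The optimal body in coordinates. -/
def Profile.B (P : Profile) : Set R3 := mk3 ⁻¹' P.body

theorem B_td (P : Profile) : Td P.B := td_of (body_convex P) (body_tsym P)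

theorem B_closed (P : Profile) : IsClosed P.B := (body_closed P).preimage mk3_cont

theorem B_curve (P : Profile) {x : ℝ} (hx : x ∈ Icc 0 P.s) : (x, x, P.f x) ∈ P.B :=
  fun _ h => h.2.2.2.1 x hx

theorem B_vertex (P : Profile) : (P.a, P.a, P.a) ∈ P.B := fun _ h => h.2.2.2.2

theorem B_min (P : Profile) {C : Set R3} (h1 : IsClosed C) (h2 : Td C)
    (h3 : ∀ x ∈ Icc 0 P.s, (x, x, P.f x) ∈ C) (h4 : (P.a, P.a, P.a) ∈ C) : P.B ⊆ C :=
  fun _ hp => hp (co ⁻¹' C)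
    ⟨h1.preimage co_cont, h2.conv.is_linear_preimage co_lin, h2.tsym, h3, h4⟩

/-- The extension of the profile by the circle. -/
noncomputable def Profile.ext (P : Profile) (x : ℝ) : ℝ :=
  if x ≤ P.b then P.f x else cc x 0 - P.f 0

namespace Profile.Solves

variable {P : Profile} (hP : P.Solves)
include hP

theorem s_le_a : P.s ≤ P.a := by linarith [hP.a_ge, hP.s_le]

theorem sub_out {m β : ℝ} (m0 : 0 ≤ m) (m2 : m ≤ 2) (h1 : ∀ x ∈ Icc 0 P.s, P.f x + m * x ≤ β)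
    (h2 : P.a + m * P.a ≤ β) : P.B ⊆ Out (1 - m) β :=
  B_min P (out_closed _ _) (out_td _ _)
    (fun x hx => out_mem m0 m2 hx.1 (by linarith [hP.g_ge hx]) (h1 x hx))
    (out_mem m0 m2 (by linarith [hP.a_ge]) le_rfl h2)

theorem sub_tan {y : ℝ} (hy : y ∈ Icc 0 P.s) : ∃ m : ℝ, 0 ≤ m ∧ m ≤ 1 / 2 ∧
    (y = P.s → m = 2 * P.s / cc P.s 0) ∧ P.B ⊆ Out (1 - m) (P.f y + m * y) := by
  obtain ⟨m, m0, m1, m2, h⟩ := hP.tan hy
  refine ⟨m, m0, m1.trans hP.nu_le, m2, hP.sub_out m0 (by linarith [hP.nu_le]) h ?_⟩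
  have h1 := h _ ⟨hP.s0, le_rfl⟩
  nlinarith [hP.tan_vertex, mul_nonneg (sub_nonneg.2 m1) (sub_nonneg.2 hP.s_le_a)]

theorem sub_face : P.B ⊆ Out (1 - 0) (P.f 0) := by
  obtain ⟨m, m0, -, -, h⟩ := hP.tan ⟨le_rfl, hP.s0⟩
  refine hP.sub_out le_rfl (by norm_num) (fun x hx => ?_) (by linarith [hP.a_le, hP.h_ge])
  linarith [h x hx, mul_nonneg m0 hx.1]

theorem sub_vertex : P.B ⊆ Out (1 - 2) (3 * P.a) := by
  obtain ⟨m, m0, m1, m2, h⟩ := hP.tan ⟨hP.s0, le_rfl⟩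
  refine hP.sub_out (by norm_num) le_rfl (fun x hx => ?_) (by linarith)
  have h1 := hP.tan_vertex
  rw [← m2 rfl] at h1
  nlinarith [h x hx, mul_nonneg (show 0 ≤ 2 - m by linarith [hP.nu_le])
    (sub_nonneg.2 (hx.2.trans hP.s_le_a))]

theorem B_compact : IsCompact P.B := by
  refine (isCompact_Icc (a := ((-1, -1, -1) : R3)) (b := (1, 1, 1))).of_isClosed_subset
    (B_closed P) ?_
  rintro ⟨x, y, z⟩ hp
  obtain ⟨⟨a1, a2, a3, a4⟩, -⟩ := hP.sub_face hp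
  have := hP.h_le
  simp only at a1 a2 a3 a4
  refine ⟨⟨?_, ?_, ?_⟩, ?_, ?_, ?_⟩ <;> simp only <;> linarith

theorem ridge_one {y : ℝ} (hy : y ∈ Icc 0 P.s) : ridge P.B 1 y = P.f y := by
  refine le_antisymm ?_ (by simpa using ridge_ge hP.B_compact (B_curve P hy) 1 y)
  obtain ⟨x, u, z, h1, h2⟩ := ridge_mem hP.B_compact ⟨_, B_vertex P⟩ 1 y
  obtain ⟨m, m0, m1, -, h⟩ := hP.sub_tan hy
  have h3 := (h h1).1.1
  simp only at h3
  nlinarith [mul_nonneg m0 (sub_nonneg.2 (le_max_right x y)),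
    mul_nonneg (show 0 ≤ 1 - m by linarith) (sub_nonneg.2 (le_max_left x y))]

theorem vol_le : volume P.B ≤ ENNReal.ofReal P.J := by
  obtain ⟨m, m0, m1, m2, hm⟩ := hP.sub_tan ⟨hP.s0, le_rfl⟩
  have tv := hP.tan_vertex
  rw [← m2 rfl] at tv
  have c1 := ridge_cont hP.B_compact ⟨_, B_vertex P⟩ (l := 1) zero_le_one
  have c3 : Continuous fun x : ℝ => P.a + m * (P.a - x) := by fun_prop
  have c4 : Continuous fun x : ℝ => P.f 0 - x := by fun_prop
  have c5 : Continuous fun _ : ℝ => (0 : ℝ) := continuous_const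
  have hu := upper (A := Pc 0 P.s id (ridge P.B 1) ∪ Pc P.s P.a id fun x => P.a + m * (P.a - x))
    (B := Pc 0 (P.f 0) (fun _ => 0) fun x => P.f 0 - x) (B_td P).sym
    (by
      intro x y z h hx hy hz
      rcases le_total x P.s with a | a
      · have := ridge_ge hP.B_compact h 1 x
        rw [max_self] at this
        exact Or.inl ⟨⟨hx, a⟩, hy, hz, by simp only [id]; linarith⟩
      · have := (hm h).1.1
        simp only at this
        exact Or.inr ⟨⟨a, by simp only; nlinarith⟩, hy, hz, by simp only [id]; linarith⟩)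
    (by
      intro x y z h hx hy hz
      have := (hP.sub_face h).1.2.1
      simp only at this
      exact ⟨⟨hx, by simp only; linarith⟩, hy, hz, by simp only; linarith⟩)
  refine hu.trans ?_
  have v1 := vol_Pc hP.s0 continuous_id c1
  have v3 := vol_Pc hP.s_le_a continuous_id c3
  have v4 := vol_Pc (p := 0) (q := P.f 0) (by linarith [hP.h_ge]) c5 c4
  rw [show (fun x : ℝ => (P.f 0 - x - 0) ^ 2 / 2) =
    fun x => (1 * (P.f 0 - x)) ^ 2 / 2 by funext x; ring, int_sq] at v4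
  rw [show (fun x : ℝ => (P.a + m * (P.a - x) - id x) ^ 2 / 2) =
    fun x => ((1 + m) * (P.a - x)) ^ 2 / 2 by funext x; simp only [id]; ring, int_sq] at v3
  rw [intervalIntegral.integral_congr (g := fun x => (P.f x - x) ^ 2 / 2) (fun x hx => by
    rw [uIcc_of_le hP.s0] at hx
    simp only [hP.ridge_one hx, id]), intervalIntegral.integral_div] at v1
  have v := (measure_union_le _ _).trans (add_le_add v1 v3)
  refine (add_le_add (mul_le_mul_right v 12) (mul_le_mul_right v4 4)).trans ?_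
  have n1 : 0 ≤ ∫ x in (0 : ℝ)..P.s, (P.f x - x) ^ 2 :=
    intervalIntegral.integral_nonneg hP.s0 fun x _ => by positivity
  have n2 := sub_nonneg.2 hP.s_le_a
  have n3 : 0 ≤ P.f 0 := by linarith [hP.h_ge]
  simp only [sub_self, sub_zero, ne_eq, OfNat.ofNat_ne_zero, not_false_eq_true, zero_pow]
  rw [← ENNReal.ofReal_add (by positivity) (by positivity), ← ENNReal.ofReal_ofNat 12,
    ← ENNReal.ofReal_ofNat 4, ← ENNReal.ofReal_mul (by norm_num), ← ENNReal.ofReal_mul (by norm_num),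
    ← ENNReal.ofReal_add (by positivity) (by positivity)]
  refine ENNReal.ofReal_le_ofReal (le_of_eq ?_)
  unfold Profile.J
  rw [show P.f P.s - P.s = (1 + m) * (P.a - P.s) by linarith]
  ring

theorem ext_pair {x t : ℝ} (x0 : 0 ≤ x) (t0 : 0 ≤ t) (h : 2 * x ^ 2 + 2 * t ^ 2 < 1) :
    cc x t ≤ P.ext x + P.ext t := by
  unfold Profile.ext
  split_ifs with g g' g'
  · exact hP.pair ⟨x0, g⟩ ⟨t0, g'⟩
  · rw [cc_comm, add_comm]
    exact hP.pair2 (not_le.1 g').le (by linarith) (hP.pair hP.memb ⟨x0, g⟩)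
  · exact hP.pair2 (not_le.1 g).le h (hP.pair hP.memb ⟨t0, g'⟩)
  · refine hP.pair2 (not_le.1 g).le h ?_
    rw [cc_comm, add_comm]
    exact hP.pair2 (not_le.1 g').le (by nlinarith [hP.b_pos, not_le.1 g]) (hP.pair hP.memb hP.memb)

theorem seg_mem {x : ℝ} (h0 : P.s ≤ x) (h1 : x ≤ P.a) :
    (x, x, P.a + 2 * P.s / cc P.s 0 * (P.a - x)) ∈ P.B := by
  have := (B_td P).move (a := -1) (b := -1) (c := 2 * P.s / cc P.s 0) (d := P.a - x)
    (L := P.a - P.s) (B_vertex P) (by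
      convert B_curve P ⟨hP.s0, le_rfl⟩ using 2
      · ring
      · congr 1 <;> linarith [hP.tan_vertex]) (by linarith) (by linarith)
  convert this using 2
  · ring
  · congr 1 <;> ring

theorem reach {x m : ℝ} (x0 : 0 ≤ x) (h : 2 * x ^ 2 ≤ 1) (m2 : m ≤ 2) :
    ∃ y z : ℝ, (y, y, z) ∈ P.B ∧ m * x + P.ext x ≤ m * y + z := by
  rcases le_total x P.s with g | g
  · refine ⟨x, _, B_curve P ⟨x0, g⟩, le_of_eq ?_⟩
    unfold Profile.ext
    split_ifs with g'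
    · rfl
    · rw [hP.arc x ⟨(not_le.1 g').le, g⟩]
  have e : P.ext x = cc x 0 - P.f 0 := by
    unfold Profile.ext
    split_ifs with g'
    · exact hP.arc x ⟨hP.b_le.trans g, g'.trans hP.b_le⟩
    · rfl
  rw [e]
  rcases le_total x P.a with g' | g'
  · refine ⟨x, _, hP.seg_mem g g', ?_⟩
    linarith [arc_tan h hP.s0 hP.s_le, hP.tan_vertex, hP.arc _ ⟨hP.b_le, le_rfl⟩]
  · refine ⟨_, _, B_vertex P, ?_⟩
    have e1 := cc_sq (s := x) (t := 0) (by linarith)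
    have e2 : 2 * x + cc x 0 ≤ Real.sqrt 3 :=
      Real.le_sqrt_of_sq_le (by nlinarith [sq_nonneg (x - cc x 0)])
    have ea : Real.sqrt 3 = 3 * P.a + P.f 0 := by unfold Profile.a; ring
    nlinarith [mul_nonneg (sub_nonneg.2 m2) (sub_nonneg.2 g')]

theorem support {m n : ℝ} (m0 : 0 ≤ m) (m2 : m ≤ 2) (n0 : 0 ≤ n) (n2 : n ≤ 2) :
    ∃ y z y' z' : ℝ, (y, y, z) ∈ P.B ∧ (y', y', z') ∈ P.B ∧
      Real.sqrt (1 + m ^ 2 / 2 + n ^ 2 / 2) ≤ m * y + z + (n * y' + z') := by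
  have e : Real.sqrt (1 + m ^ 2 / 2 + n ^ 2 / 2) ^ 2 = 1 + m ^ 2 / 2 + n ^ 2 / 2 :=
    Real.sq_sqrt (by positivity)
  have r0 : 0 < Real.sqrt (1 + m ^ 2 / 2 + n ^ 2 / 2) := by positivity
  generalize Real.sqrt (1 + m ^ 2 / 2 + n ^ 2 / 2) = ρ at e r0
  have e1 : 1 - 2 * (m / (2 * ρ)) ^ 2 - 2 * (n / (2 * ρ)) ^ 2 = (1 / ρ) ^ 2 := by
    field_simp
    linarith
  have p : 0 < (1 / ρ) ^ 2 := by positivity
  obtain ⟨y, z, h1, h2⟩ := hP.reach (x := m / (2 * ρ)) (by positivity)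
    (by nlinarith [sq_nonneg (n / (2 * ρ))]) m2
  obtain ⟨y', z', h3, h4⟩ := hP.reach (x := n / (2 * ρ)) (by positivity)
    (by nlinarith [sq_nonneg (m / (2 * ρ))]) n2
  have h5 := hP.ext_pair (x := m / (2 * ρ)) (t := n / (2 * ρ)) (by positivity) (by positivity)
    (by linarith)
  rw [cc, e1, Real.sqrt_sq (by positivity)] at h5
  have e2 : m * (m / (2 * ρ)) + n * (n / (2 * ρ)) + 1 / ρ = ρ := by
    field_simp
    linarith
  exact ⟨y, z, y', z', h1, h3, by linarith⟩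

end Profile.Solves

end Pool.Agent.MP_1e9c11_gt.H69
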