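import Pool.Agent.MP_1e9c11_gt.H81.Defs

/-! The body of least volume among the bodies of width one with full tetrahedral symmetry. -/

namespace Pool.Agent.MP_1e9c11_gt.H69

open Pool.Agent.MP_1e9c11_gt.H81

/-- Invariance under the full symmetry group of the regular tetrahedron with vertices
`(1,1,1), (1,-1,-1), (-1,1,-1), (-1,-1,1)`; the three maps generate that group of order 24. -/
def TSym (K : Set E3) : Prop :=
  ∀ p ∈ K, (!₂[-p 0, -p 1, p 2] : E3) ∈ K ∧ (!₂[p 1, p 2, p 0] : E3) ∈ K ∧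
    (!₂[p 1, p 0, p 2] : E3) ∈ K

/-- The third coordinate of the unit vector `(s + t, s - t, cc s t)`. -/
noncomputable def cc (s t : ℝ) : ℝ := Real.sqrt (1 - 2 * s ^ 2 - 2 * t ^ 2)

/-- The data of an edge curve `x ↦ (x, x, f x)`, `0 ≤ x ≤ s`, with a pairing `T` of its points
over `[0, b]`. -/
structure Profile where
  /-- The height of the edge curve. -/
  f : ℝ → ℝ
  /-- The pairing. -/
  T : ℝ → ℝ
  /-- The end of the first part of the curve. -/
  b : ℝ
  /-- The end of the circular part of the curve. -/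
  s : ℝ

/-- The vertex of the body is `(a, a, a)`. -/
noncomputable def Profile.a (P : Profile) : ℝ := (Real.sqrt 3 - P.f 0) / 3

/-- The equations of the optimal edge curve. -/
structure Profile.Solves (P : Profile) : Prop where
  b_pos : 0 < P.b
  b_le : P.b ≤ P.s
  s_le : P.s ≤ 13 / 100
  T_zero : P.T 0 = P.b
  T_mem : ∀ x ∈ Set.Icc 0 P.b, P.T x ∈ Set.Icc 0 P.b
  T_T : ∀ x ∈ Set.Icc 0 P.b, P.T (P.T x) = x
  contact : ∀ x ∈ Set.Icc 0 P.b, P.f x + P.f (P.T x) = cc x (P.T x)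
  f_deriv : ∀ x ∈ Set.Icc 0 P.b,
    HasDerivWithinAt P.f (-(2 * x) / cc x (P.T x)) (Set.Icc 0 P.b) x
  T_deriv : ∀ x ∈ Set.Icc 0 P.b,
    HasDerivWithinAt P.T (-(P.f x - x) / (P.f (P.T x) - P.T x)) (Set.Icc 0 P.b) x
  arc : ∀ x ∈ Set.Icc P.b P.s, P.f x = cc x 0 - P.f 0
  tangent : (P.f P.s - P.a) * cc P.s 0 = 2 * P.s * (P.a - P.s)
  balance : 2 * P.f 0 ^ 2 - 2 / 3 * (P.f P.s - P.s) ^ 2 =
    4 * (P.a - P.s) * (P.f P.s - P.s) + 12 * ∫ x in P.b..P.s, (P.f x - x)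

/-- The smallest closed convex set with tetrahedral symmetry which contains the edge curve and
the vertex. -/
def Profile.body (P : Profile) : Set E3 :=
  ⋂₀ {C : Set E3 | IsClosed C ∧ Convex ℝ C ∧ TSym C ∧
    (∀ x ∈ Set.Icc 0 P.s, (!₂[x, x, P.f x] : E3) ∈ C) ∧ (!₂[P.a, P.a, P.a] : E3) ∈ C}

end Pool.Agent.MP_1e9c11_gt.H69
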