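import Pool.Agent.MP_1e9c11_gt.H69.Prof

/-! The dual inequality. -/

open MeasureTheory Set

namespace Pool.Agent.MP_1e9c11_gt.H69

open Pool.Agent.MP_1e9c11_gt.H81

/-- The volume of the optimal body. -/
noncomputable def Profile.J (P : Profile) : ℝ :=
  2 / 3 * P.f 0 ^ 3 + 6 * (∫ x in (0 : ℝ)..P.s, (P.f x - x) ^ 2) +
    2 * (P.a - P.s) * (P.f P.s - P.s) ^ 2

theorem finite_part {h g u w k : ℝ} (h0 : 1 / 2 ≤ h) (g0 : 0 ≤ g) (g1 : g ≤ 51 / 100)
    (u0 : 1 / 2 ≤ u) (u1 : u ≤ 5085 / 10000) (hk : 89 / 100 ≤ k) :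
    2 / 3 * h * (h ^ 2 - g ^ 2) + k * g ^ 2 + (2 * h ^ 2 - 2 / 3 * g ^ 2) * (u - h) +
      (2 * k - 4 / 3 * h) * g * (w - g) ≤ 2 / 3 * u * (u ^ 2 - w ^ 2) + k * w ^ 2 := by
  have e : 2 / 3 * u * (u ^ 2 - w ^ 2) + k * w ^ 2 - (2 / 3 * h * (h ^ 2 - g ^ 2) + k * g ^ 2 +
      (2 * h ^ 2 - 2 / 3 * g ^ 2) * (u - h) + (2 * k - 4 / 3 * h) * g * (w - g)) =
      2 / 3 * (2 * h + u) * (u - h) ^ 2 - 4 / 3 * g * ((u - h) * (w - g)) +
        (k - 2 / 3 * u) * (w - g) ^ 2 := by ring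
  rw [← sub_nonneg, e]
  generalize u - h = d, w - g = c
  have a1 : 1 * d ^ 2 ≤ 2 / 3 * (2 * h + u) * d ^ 2 :=
    mul_le_mul_of_nonneg_right (by linarith) (sq_nonneg d)
  have a2 : 1 / 2 * c ^ 2 ≤ (k - 2 / 3 * u) * c ^ 2 :=
    mul_le_mul_of_nonneg_right (by linarith) (sq_nonneg c)
  have a3 : g * (2 * (d * c)) ≤ g * (d ^ 2 + c ^ 2) :=
    mul_le_mul_of_nonneg_left (by nlinarith [sq_nonneg (d - c)]) g0
  have a4 : g * (d ^ 2 + c ^ 2) ≤ 51 / 100 * (d ^ 2 + c ^ 2) :=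
    mul_le_mul_of_nonneg_right g1 (by positivity)
  nlinarith [sq_nonneg d, sq_nonneg c]

namespace Profile.Solves

variable {P : Profile} (hP : P.Solves)
include hP

theorem int1 {D : ℝ → ℝ} (hD : ContinuousOn D (Icc 0 P.b))
    (h : ∀ x ∈ Icc 0 P.b, 0 ≤ D x + D (P.T x)) : 0 ≤ ∫ x in (0 : ℝ)..P.b, (P.f x - x) * D x := by
  have b0 := hP.b_pos.le
  have e := intervalIntegral.integral_comp_mul_deriv_of_deriv_nonpos (a := 0) (b := P.b) (f := P.T)
    (f' := fun x => -(P.f x - x) / (P.f (P.T x) - P.T x)) (g := fun x => (P.f x - x) * D x)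
    (by rw [uIcc_of_le b0]; exact hP.T_cont)
    (fun x hx => by
      rw [min_eq_left b0, max_eq_right b0] at hx
      exact (hP.T_deriv x (Ioo_subset_Icc_self hx)).hasDerivAt (Icc_mem_nhds hx.1 hx.2))
    (fun x hx => by
      rw [min_eq_left b0, max_eq_right b0] at hx
      have hx' := Ioo_subset_Icc_self hx
      exact div_nonpos_of_nonpos_of_nonneg (by linarith [hP.g_ge (hP.sub hx')])
        (by linarith [hP.g_ge (hP.sub (hP.T_mem x hx'))]))
  rw [hP.T_zero, hP.T_b, intervalIntegral.integral_symm 0 P.b,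
    intervalIntegral.integral_congr (g := fun x => -((P.f x - x) * D (P.T x))) (fun x hx => by
      rw [uIcc_of_le b0] at hx
      have : P.f (P.T x) - P.T x ≠ 0 := by linarith [hP.g_ge (hP.sub (hP.T_mem x hx))]
      simp only [Function.comp]
      field_simp), intervalIntegral.integral_neg, neg_inj] at e
  have c1 : ContinuousOn (fun x => P.f x - x) (Icc 0 P.b) := hP.f_cont1.sub continuousOn_id
  have i1 := (c1.mul hD).intervalIntegrable_of_Icc (μ := volume) b0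
  have i2 := (c1.mul (hD.comp hP.T_cont hP.T_mem)).intervalIntegrable_of_Icc (μ := volume) b0
  have s := intervalIntegral.integral_add i1 i2
  have p : 0 ≤ ∫ x in (0 : ℝ)..P.b, ((P.f x - x) * D x + (P.f x - x) * D (P.T x)) :=
    intervalIntegral.integral_nonneg b0 fun x hx => by
      rw [← mul_add]
      exact mul_nonneg (by linarith [hP.g_ge (hP.sub hx)]) (h x hx)
  simp only [Pi.mul_apply, Function.comp] at s
  linarith

theorem dual {F : ℝ → ℝ} (hF : Continuous F) {a r : ℝ}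
    (pair : ∀ x ∈ Icc 0 P.s, ∀ t ∈ Icc 0 P.s, cc x t ≤ F x + F t) (h1 : F 0 ≤ 5085 / 10000)
    (hs : Real.sqrt 3 ≤ 3 * a + 3 * r) :
    P.J + 6 * (∫ x in (0 : ℝ)..P.s, (F x - P.f x) ^ 2) +
        2 / 3 * (3 * r - F 0) * (F 0 ^ 2 - (F P.s - P.s) ^ 2) ≤
      2 * r * F 0 ^ 2 + 6 * (∫ x in (0 : ℝ)..P.s, (F x - x) ^ 2) +
        2 * (a - P.s) * (F P.s - P.s) ^ 2 := by
  have b0 := hP.b_pos.le
  have s0 := hP.s0
  have m0 : (0 : ℝ) ∈ Icc 0 P.s := ⟨le_rfl, s0⟩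
  have ms : P.s ∈ Icc 0 P.s := ⟨s0, le_rfl⟩
  have cg : ContinuousOn (fun x => P.f x - x) (Icc 0 P.s) := hP.f_cont.sub continuousOn_id
  have cD : ContinuousOn (fun x => F x - P.f x) (Icc 0 P.s) := hF.continuousOn.sub hP.f_cont
  have sub1 : Icc 0 P.b ⊆ Icc 0 P.s := Icc_subset_Icc le_rfl hP.b_le
  have sub2 : Icc P.b P.s ⊆ Icc 0 P.s := Icc_subset_Icc b0 le_rfl
  have e1 : ∫ x in (0 : ℝ)..P.s, (F x - x) ^ 2 = (∫ x in (0 : ℝ)..P.s, (P.f x - x) ^ 2) +
      2 * (∫ x in (0 : ℝ)..P.s, (P.f x - x) * (F x - P.f x)) +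
      ∫ x in (0 : ℝ)..P.s, (F x - P.f x) ^ 2 := by
    have i1 : IntervalIntegrable (fun x => (P.f x - x) ^ 2) volume 0 P.s :=
      (cg.pow 2).intervalIntegrable_of_Icc s0
    have i2 : IntervalIntegrable (fun x => 2 * ((P.f x - x) * (F x - P.f x))) volume 0 P.s :=
      ((cg.mul cD).intervalIntegrable_of_Icc s0).const_mul 2
    have i3 : IntervalIntegrable (fun x => (F x - P.f x) ^ 2) volume 0 P.s :=
      (cD.pow 2).intervalIntegrable_of_Icc s0
    rw [← intervalIntegral.integral_const_mul, ← intervalIntegral.integral_add i1 i2,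
      ← intervalIntegral.integral_add (i1.add i2) i3]
    congr 1
    funext x
    ring
  have j2 : IntervalIntegrable (fun x => (P.f x - x) * (F x - P.f x)) volume P.b P.s :=
    ((cg.mul cD).mono sub2).intervalIntegrable_of_Icc hP.b_le
  have e2 := intervalIntegral.integral_add_adjacent_intervals
    (f := fun x => (P.f x - x) * (F x - P.f x))
    (((cg.mul cD).mono sub1).intervalIntegrable_of_Icc (μ := volume) b0) j2
  have i1 := hP.int1 (cD.mono sub1) fun x hx => by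
    have := pair x (sub1 hx) _ (sub1 (hP.T_mem x hx))
    linarith [hP.contact x hx]
  have dd : ∀ x ∈ Icc P.b P.s, 0 ≤ F 0 - P.f 0 + (F x - P.f x) := fun x hx => by
    have := pair x (sub2 hx) 0 m0
    linarith [hP.arc x hx]
  have i2 : -(F 0 - P.f 0) * ∫ x in P.b..P.s, (P.f x - x) ≤
      ∫ x in P.b..P.s, (P.f x - x) * (F x - P.f x) := by
    rw [← intervalIntegral.integral_const_mul]
    refine intervalIntegral.integral_mono_on hP.b_le
      (((cg.mono sub2).intervalIntegrable_of_Icc hP.b_le).const_mul _) j2 fun x hx => ?_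
    nlinarith [mul_nonneg (show 0 ≤ P.f x - x by linarith [hP.g_ge (sub2 hx)]) (dd x hx)]
  have u0 : 1 / 2 ≤ F 0 := by
    have := pair 0 m0 0 m0
    rw [show cc 0 0 = 1 by simp [cc]] at this
    linarith
  have g0 := hP.g_ge ms
  have g1 : P.f P.s - P.s ≤ 51 / 100 := by
    have h2 := hP.arc _ ⟨hP.b_le, le_rfl⟩
    have h3 := cc_le' s0 hP.s_le
    nlinarith [hP.h_ge, sq_nonneg P.s]
  have fp := finite_part (w := F P.s - P.s) (k := 2 / 3 * Real.sqrt 3 - 2 * P.s) hP.h_ge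
    (by linarith) g1 u0 h1 (by linarith [sqrt3_ge, hP.s_le])
  have bal := hP.balance
  have ds := dd _ ⟨hP.b_le, le_rfl⟩
  have M0 := mul_nonneg (mul_nonneg (show 0 ≤ P.a - P.s by linarith [hP.a_ge, hP.s_le])
    (show 0 ≤ P.f P.s - P.s by linarith)) ds
  have va := mul_nonneg (sq_nonneg (F P.s - P.s)) (sub_nonneg.2 hs)
  have ea : Real.sqrt 3 = 3 * P.a + P.f 0 := by unfold Profile.a; ring
  unfold Profile.J
  rw [e1, ← e2]
  rw [bal] at fp
  rw [ea] at fp va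
  nlinarith

end Profile.Solves

end Pool.Agent.MP_1e9c11_gt.H69
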