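import Pool.Agent.MP_1e9c11_gt.H69.Invol

/-! Existence of a solution of the equations of the edge curve. -/

open MeasureTheory Set

namespace Pool.Agent.MP_1e9c11_gt.H69

open Pool.Agent.MP_1e9c11_gt.H81

/-- The point of tangency. -/
noncomputable def sf (h : ℝ) : ℝ :=
  (3 * Real.sqrt 3 - 6 * h - 2 * Real.sqrt 3 * h ^ 2) / (9 + 6 * h ^ 2)

theorem sf_bounds {h : ℝ} (h0 : 4999 / 10000 ≤ h) (h1 : h ≤ 5003 / 10000) :
    126 / 1000 ≤ sf h ∧ sf h ≤ 127 / 1000 := by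
  have a1 := sqrt3_ge
  have a2 := sqrt3_le
  have b1 : (4999 / 10000) ^ 2 ≤ h ^ 2 := by gcongr
  have b2 : h ^ 2 ≤ (5003 / 10000) ^ 2 := by gcongr
  have c1 : 17320508 / 10000000 * h ^ 2 ≤ Real.sqrt 3 * h ^ 2 := by gcongr
  have c2 : Real.sqrt 3 * h ^ 2 ≤ 17320509 / 10000000 * h ^ 2 := by gcongr
  unfold sf
  rw [le_div_iff₀ (by positivity), div_le_iff₀ (by positivity)]
  constructor <;> linarith

theorem sf_tan {h : ℝ} (h0 : 4999 / 10000 ≤ h) (h1 : h ≤ 5003 / 10000) :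
    (cc (sf h) 0 - h - (Real.sqrt 3 - h) / 3) * cc (sf h) 0 =
      2 * sf h * ((Real.sqrt 3 - h) / 3 - sf h) := by
  have e : Real.sqrt 3 ^ 2 = 3 := Real.sq_sqrt (by norm_num)
  have a1 := sqrt3_ge
  have a2 := sqrt3_le
  have b2 : h ^ 2 ≤ (5003 / 10000) ^ 2 := by gcongr
  have c2 : Real.sqrt 3 * h ^ 2 ≤ 17320509 / 10000000 * h ^ 2 := by gcongr
  have c : cc (sf h) 0 = (3 * Real.sqrt 3 + 12 * h - 2 * Real.sqrt 3 * h ^ 2) / (9 + 6 * h ^ 2) := by
    rw [cc, Real.sqrt_eq_iff_eq_sq _ (div_nonneg (by linarith) (by positivity))]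
    · unfold sf
      field_simp
      generalize Real.sqrt 3 = k at e
      linear_combination (-27 + 36 * h ^ 2 - 12 * h ^ 4) * e
    · obtain ⟨s0, s1⟩ := sf_bounds h0 h1
      nlinarith
  rw [c]
  unfold sf
  field_simp
  generalize Real.sqrt 3 = k at e
  linear_combination (-108 * h ^ 2 + 72 * h ^ 4) * e

/-- The shooting function. -/
noncomputable def sh (b h : ℝ) : ℝ :=
  4 * ((Real.sqrt 3 - h) / 3 - sf h) * (cc (sf h) 0 - h - sf h) +
    12 * (∫ x in b..sf h, (cc x 0 - h - x)) - (2 * h ^ 2 - 2 / 3 * (cc (sf h) 0 - h - sf h) ^ 2)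

theorem sh_cont : Continuous fun p : ℝ × ℝ => sh p.1 p.2 := by
  have c0 : Continuous fun x : ℝ => cc x 0 - x := by unfold cc; fun_prop
  have c1 : Continuous sf := by
    unfold sf
    exact Continuous.div (by fun_prop) (by fun_prop) fun h => by positivity
  have c2 := intervalIntegral.continuous_primitive (μ := volume)
    (fun a b => c0.intervalIntegrable a b) 0
  have e : ∀ b h : ℝ, ∫ x in b..sf h, (cc x 0 - h - x) =
      (∫ x in (0 : ℝ)..sf h, (cc x 0 - x)) - (∫ x in (0 : ℝ)..b, (cc x 0 - x)) - (sf h - b) * h := by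
    intro b h
    rw [intervalIntegral.integral_interval_sub_left (c0.intervalIntegrable _ _)
      (c0.intervalIntegrable _ _), ← smul_eq_mul, ← intervalIntegral.integral_const,
      ← intervalIntegral.integral_sub (c0.intervalIntegrable _ _) (by simp)]
    congr 1
    funext x
    ring
  have c4 := c2.comp c1
  simp only [sh, e]
  exact (Continuous.add (by unfold cc; fun_prop) ((((c4.comp continuous_snd).sub
    (c2.comp continuous_fst)).sub (by fun_prop)).const_mul 12)).sub (by unfold cc; fun_prop)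

theorem sh_pos {h : ℝ} (h0 : 4999 / 10000 ≤ h) (h1 : h ≤ 5003 / 10000) : 0 < sh 0 h := by
  obtain ⟨s0, s1⟩ := sf_bounds h0 h1
  have a1 := sqrt3_ge
  have i := intervalIntegral.integral_mono_on (μ := volume) (a := 0) (b := sf h)
    (f := fun _ => (35 / 100 : ℝ)) (g := fun x => cc x 0 - h - x) (by linarith) (by simp)
    (Continuous.intervalIntegrable (by unfold cc; fun_prop) _ _)
    fun x hx => by linarith [cc_ge' hx.1 (by linarith [hx.2]), hx.2]
  simp only [intervalIntegral.integral_const, smul_eq_mul] at i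
  have g := cc_ge' (s := sf h) (by linarith) (by linarith)
  have b2 : h ^ 2 ≤ (5003 / 10000) ^ 2 := by gcongr
  have p := mul_nonneg (show 0 ≤ (Real.sqrt 3 - h) / 3 - sf h by linarith)
    (show 0 ≤ cc (sf h) 0 - h - sf h by linarith)
  unfold sh
  linarith [sq_nonneg (cc (sf h) 0 - h - sf h)]

theorem sh_neg {b h : ℝ} (h0 : 4999 / 10000 ≤ h) (h1 : h ≤ 5003 / 10000) (b0 : sf h ≤ b)
    (b1 : b ≤ 1 / 5) : sh b h < 0 := by
  obtain ⟨s0, s1⟩ := sf_bounds h0 h1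
  have a1 := sqrt3_ge
  have a2 := sqrt3_le
  have i : 0 ≤ ∫ x in sf h..b, (cc x 0 - h - x) := intervalIntegral.integral_nonneg b0 fun x hx => by
    have : 9 / 10 ≤ cc x 0 := Real.le_sqrt_of_sq_le (by nlinarith [hx.1, hx.2])
    linarith [hx.2]
  have g := cc_ge' (s := sf h) (by linarith) (by linarith)
  have g' := cc_le' (s := sf h) (by linarith) (by linarith)
  have b2 : (4999 / 10000) ^ 2 ≤ h ^ 2 := by gcongr
  have b3 : (126 / 1000) ^ 2 ≤ sf h ^ 2 := by gcongr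
  have p := mul_le_mul (show (Real.sqrt 3 - h) / 3 - sf h ≤ 285 / 1000 by linarith)
    (show cc (sf h) 0 - h - sf h ≤ 36 / 100 by linarith) (by linarith) (by norm_num)
  have q : (cc (sf h) 0 - h - sf h) ^ 2 ≤ (36 / 100) ^ 2 := by
    gcongr
    · linarith
    · linarith
  unfold sh
  rw [intervalIntegral.integral_symm]
  linarith

theorem solves_of {σ : ℝ} {T u : ℝ → ℝ} (hS : Sol σ T u) (h : σ ∈ Icc (0 : ℝ) (13 / 200))
    (e : sh (T 0) (u 0) = 0) : ∃ P : Profile, P.Solves := by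
  have h0 := hS.h_ge h.1 h.2
  have h1 := hS.u_le h.2 ⟨le_rfl, h.1⟩
  have b1 := hS.T_le h.2 ⟨le_rfl, h.1⟩
  obtain ⟨s0, s1⟩ := sf_bounds h0 h1
  have b0 : 0 < T 0 := (h.1.trans (hS.b_ge h.1 h.2)).lt_of_ne fun g => by
    rw [← g] at e
    exact (sh_pos h0 h1).ne' e
  have bs : T 0 ≤ sf (u 0) := not_lt.1 fun g => (sh_neg h0 h1 g.le b1).ne e
  have al := fun x (hx : x ∈ Icc 0 (T 0)) => hS.all h.1 h.2 hx
  obtain ⟨f, f1, f2⟩ : ∃ f : ℝ → ℝ, (∀ x ∈ Icc 0 (T 0), f x = u x) ∧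
      ∀ x, T 0 ≤ x → f x = cc x 0 - u 0 := by
    refine ⟨fun x => if x ≤ T 0 then u x else cc x 0 - u 0, fun x hx => if_pos hx.2,
      fun x hx => ?_⟩
    simp only
    split_ifs with g
    · obtain rfl := le_antisymm g hx
      obtain ⟨-, -, -, a⟩ := al 0 ⟨le_rfl, b0.le⟩
      rw [cc_comm] at a
      linarith
    · rfl
  have f0 := f1 0 ⟨le_rfl, b0.le⟩
  refine ⟨⟨f, T, T 0, sf (u 0)⟩, b0, bs, by simp only; linarith, rfl, fun x hx => (al x hx).2.1,
    fun x hx => (al x hx).2.2.1, fun x hx => ?_, fun x hx => ?_, fun x hx => ?_,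
    fun x hx => ?_, ?_, ?_⟩ <;> simp only [Profile.a, f0]
  · rw [f1 x hx, f1 _ (al x hx).2.1, (al x hx).2.2.2]
  · have := hS.du hx.1 (hx.2.trans b1)
    rw [clamp_eq (al x hx).1] at this
    exact this.hasDerivWithinAt.congr f1 (f1 x hx)
  · have := hS.dT hx.1 (hx.2.trans b1)
    rw [clamp_eq (al x hx).1] at this
    rw [f1 x hx, f1 _ (al x hx).2.1, eq_sub_of_add_eq' (al x hx).2.2.2]
    exact this.hasDerivWithinAt
  · exact f2 x hx.1
  · rw [f2 _ bs]
    exact sf_tan h0 h1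
  · rw [f2 _ bs, intervalIntegral.integral_congr (g := fun x => cc x 0 - u 0 - x) fun x hx => by
      rw [uIcc_of_le bs] at hx
      simp only [f2 x hx.1]]
    unfold sh at e
    linarith

theorem exists_solves : ∃ P : Profile, P.Solves := by
  obtain ⟨T, u, hs, cT, cu⟩ := exists_sol
  have m0 : (0 : ℝ) ∈ Icc (0 : ℝ) (13 / 200) := ⟨le_rfl, by norm_num⟩
  have m1 : (13 / 200 : ℝ) ∈ Icc (0 : ℝ) (13 / 200) := ⟨by norm_num, le_rfl⟩
  have a0 := (hs _ m0).h_ge m0.1 m0.2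
  have a1 := (hs _ m0).u_le m0.2 ⟨le_rfl, m0.1⟩
  have b0 := (hs _ m1).h_ge m1.1 m1.2
  have b1 := (hs _ m1).u_le m1.2 ⟨le_rfl, m1.1⟩
  have n := sh_neg b0 b1 (b := T (13 / 200) 0)
    (by linarith [(sf_bounds b0 b1).2, (hs _ m1).b_ge' m1.1 m1.2])
    ((hs _ m1).T_le m1.2 ⟨le_rfl, m1.1⟩)
  have p : 0 < sh (T 0 0) (u 0 0) := by
    rw [(hs 0 m0).T_init]
    exact sh_pos a0 a1
  have c : ContinuousOn (fun σ => sh (T σ 0) (u σ 0)) (Icc 0 (13 / 200)) :=
    sh_cont.comp_continuousOn (f := fun σ => (T σ 0, u σ 0)) (cT.prodMk cu)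
  obtain ⟨σ, h, e⟩ := intermediate_value_Icc' m1.1 c ⟨n.le, p.le⟩
  exact solves_of (hs σ h) h e

end Pool.Agent.MP_1e9c11_gt.H69
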