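import Pool.Agent.MP_1e9c11_gt.H69.Prof

/-! The differential equation of the edge curve: the flow of a clamped vector field. -/

open MeasureTheory Set

namespace Pool.Agent.MP_1e9c11_gt.H69

open Pool.Agent.MP_1e9c11_gt.H81

/-- Clamping to an interval. -/
def cl (p q t : ℝ) : ℝ := max p (min q t)

theorem cl_mem {p q : ℝ} (h : p ≤ q) (t : ℝ) : cl p q t ∈ Icc p q :=
  ⟨le_max_left _ _, max_le h (min_le_left _ _)⟩

theorem cl_eq {p q t : ℝ} (h : t ∈ Icc p q) : cl p q t = t := by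
  rw [cl, min_eq_right h.2, max_eq_right h.1]

/-- The box on which the vector field is not clamped. -/
def box : Set R3 := Icc 0 (1 / 5) ×ˢ Icc 0 (1 / 5) ×ˢ Icc (45 / 100) (505 / 1000)

/-- Clamping to the box. -/
noncomputable def clamp (w : R3) : R3 :=
  (cl 0 (1 / 5) w.1, cl 0 (1 / 5) w.2.1, cl (45 / 100) (505 / 1000) w.2.2)

theorem clamp_mem (w : R3) : clamp w ∈ box :=
  ⟨cl_mem (by norm_num) _, cl_mem (by norm_num) _, cl_mem (by norm_num) _⟩

theorem clamp_eq {w : R3} (h : w ∈ box) : clamp w = w := by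
  rw [clamp, cl_eq h.1, cl_eq h.2.1, cl_eq h.2.2]

theorem clamp_lip : ∃ K, LipschitzWith K clamp :=
  ⟨_, ((LipschitzWith.prod_fst.const_min _).const_max _).prodMk
    ((((LipschitzWith.prod_fst.comp LipschitzWith.prod_snd).const_min _).const_max _).prodMk
      (((LipschitzWith.prod_snd.comp LipschitzWith.prod_snd).const_min _).const_max _))⟩

/-- The vector field. -/
noncomputable def vf (w : R3) : R3 :=
  (1, -(w.2.2 - w.1) / (cc w.1 w.2.1 - w.2.2 - w.2.1), -(2 * w.1) / cc w.1 w.2.1)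

theorem box_cc {w : R3} (h : w ∈ box) : 9 / 10 ≤ cc w.1 w.2.1 :=
  Real.le_sqrt_of_sq_le (by nlinarith [h.1.1, h.1.2, h.2.1.1, h.2.1.2])

theorem vf_smooth : ContDiffOn ℝ 1 vf box := by
  have h1 : ContDiffOn ℝ 1 (fun w : R3 => cc w.1 w.2.1) box :=
    ContDiffOn.sqrt (by fun_prop) fun w h => by nlinarith [h.1.1, h.1.2, h.2.1.1, h.2.1.2]
  refine contDiffOn_const.prodMk (ContDiffOn.prodMk (ContDiffOn.div (by fun_prop)
    ((h1.sub (by fun_prop)).sub (by fun_prop)) fun w h => ?_)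
    (ContDiffOn.div (by fun_prop) h1 fun w h => ?_))
  · linarith [box_cc h, h.2.1.2, h.2.2.2]
  · linarith [box_cc h]

theorem box_compact : IsCompact box := isCompact_Icc.prod (isCompact_Icc.prod isCompact_Icc)

theorem vf_lip : ∃ K, LipschitzWith K (vf ∘ clamp) := by
  obtain ⟨K, h⟩ := vf_smooth.exists_lipschitzOnWith one_ne_zero
    ((convex_Icc _ _).prod ((convex_Icc _ _).prod (convex_Icc _ _))) box_compact
  obtain ⟨K', h'⟩ := clamp_lip
  exact ⟨_, lipschitzOnWith_univ.1 (h.comp h'.lipschitzOnWith fun w _ => clamp_mem w)⟩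

theorem vf_bdd : ∃ L : NNReal, ∀ w, ‖vf (clamp w)‖ ≤ L := by
  obtain ⟨C, h⟩ := box_compact.exists_bound_of_continuousOn vf_smooth.continuousOn
  exact ⟨C.toNNReal, fun w => (h _ (clamp_mem w)).trans (Real.le_coe_toNNReal C)⟩

theorem d_fst {A B : Type} [NormedAddCommGroup A] [NormedSpace ℝ A] [NormedAddCommGroup B]
    [NormedSpace ℝ B] {g : ℝ → A × B} {v : A × B} {x : ℝ} (h : HasDerivAt g v x) :
    HasDerivAt (fun x => (g x).1) v.1 x :=
  (ContinuousLinearMap.fst ℝ A B).hasFDerivAt.comp_hasDerivAt x h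

theorem d_snd {A B : Type} [NormedAddCommGroup A] [NormedSpace ℝ A] [NormedAddCommGroup B]
    [NormedSpace ℝ B] {g : ℝ → A × B} {v : A × B} {x : ℝ} (h : HasDerivAt g v x) :
    HasDerivAt (fun x => (g x).2) v.2 x :=
  (ContinuousLinearMap.snd ℝ A B).hasFDerivAt.comp_hasDerivAt x h

/-- A solution of the clamped equation through the symmetric point over `σ`. -/
structure Sol (σ : ℝ) (T u : ℝ → ℝ) : Prop where
  T_init : T σ = σ
  u_init : u σ = cc σ σ / 2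
  ode : ∀ x ∈ Icc (-1 / 2 : ℝ) (1 / 2),
    HasDerivAt (fun x => ((x, T x, u x) : R3)) (vf (clamp (x, T x, u x))) x

theorem exists_sol : ∃ T u : ℝ → ℝ → ℝ, (∀ σ ∈ Icc (0 : ℝ) (13 / 200), Sol σ (T σ) (u σ)) ∧
    ContinuousOn (fun σ => T σ 0) (Icc 0 (13 / 200)) ∧
    ContinuousOn (fun σ => u σ 0) (Icc 0 (13 / 200)) := by
  obtain ⟨K, hK⟩ := vf_lip
  obtain ⟨L, hL⟩ := vf_bdd
  obtain ⟨α, h1, h2⟩ := (IsPicardLindelof.of_time_independent (f := vf ∘ clamp)
    (t₀ := (⟨0, by norm_num⟩ : Icc (-1 : ℝ) 1)) (x₀ := 0) (a := L + 1) (r := 1)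
    (fun w _ => hL w) hK.lipschitzOnWith
    (by simp)).exists_forall_mem_closedBall_eq_hasDerivWithinAt_continuousOn
  have m : ∀ σ ∈ Icc (0 : ℝ) (13 / 200),
      ((σ, σ, cc σ σ / 2) : R3) ∈ Metric.closedBall (0 : R3) (1 : NNReal) := fun σ h => by
    have a1 : cc σ σ ≤ 1 := Real.sqrt_le_one.2 (by nlinarith)
    have a2 := cc_nonneg σ σ
    simp only [mem_closedBall_zero_iff, Prod.norm_def, Real.norm_eq_abs, NNReal.coe_one,
      max_le_iff, abs_le]
    refine ⟨⟨?_, ?_⟩, ⟨?_, ?_⟩, ?_, ?_⟩ <;> linarith [h.1, h.2]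
  have c : ContinuousOn (fun σ : ℝ => α ((σ, σ, cc σ σ / 2), 0 - σ)) (Icc 0 (13 / 200)) :=
    h2.comp (by unfold cc; fun_prop) fun σ h =>
      ⟨m σ h, by simp only [mem_Icc]; constructor <;> linarith [h.1, h.2]⟩
  refine ⟨fun σ x => (α ((σ, σ, cc σ σ / 2), x - σ)).2.1,
    fun σ x => (α ((σ, σ, cc σ σ / 2), x - σ)).2.2, fun σ h => ?_, c.snd.fst, c.snd.snd⟩
  obtain ⟨e, hd⟩ := h1 _ (m σ h)
  have d : ∀ x ∈ Ioo (-3 / 4 : ℝ) (3 / 4), HasDerivAt (fun x => α ((σ, σ, cc σ σ / 2), x - σ))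
      (vf (clamp (α ((σ, σ, cc σ σ / 2), x - σ)))) x := fun x hx =>
    ((hd (x - σ) ⟨by linarith [hx.1, h.2], by linarith [hx.2, h.1]⟩).hasDerivAt
      (Icc_mem_nhds (by linarith [hx.1, h.2]) (by linarith [hx.2, h.1]))).comp_sub_const x σ
  have e1 : ∀ x ∈ Ioo (-3 / 4 : ℝ) (3 / 4), (α ((σ, σ, cc σ σ / 2), x - σ)).1 = x := fun x hx => by
    have := isOpen_Ioo.eqOn_of_deriv_eq (𝕜 := ℝ) (f := fun x => (α ((σ, σ, cc σ σ / 2), x - σ)).1)
      (g := id) isPreconnected_Ioo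
      (fun y hy => (d_fst (d y hy)).differentiableAt.differentiableWithinAt)
      differentiableOn_id (fun y hy => by rw [(d_fst (d y hy)).deriv]; simp [vf])
      (x := σ) ⟨by linarith [h.1], by linarith [h.2]⟩ (by simp only [sub_self]; exact congrArg _ e)
    exact this hx
  refine ⟨by simp only [sub_self]; exact congrArg (·.2.1) e,
    by simp only [sub_self]; exact congrArg (·.2.2) e, fun x hx => ?_⟩
  have hx' : x ∈ Ioo (-3 / 4 : ℝ) (3 / 4) := ⟨by linarith [hx.1], by linarith [hx.2]⟩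
  have := (d x hx').congr_of_eventuallyEq
    (f₁ := fun x => (x, (α ((σ, σ, cc σ σ / 2), x - σ)).2.1, (α ((σ, σ, cc σ σ / 2), x - σ)).2.2))
    (Filter.eventually_of_mem (isOpen_Ioo.mem_nhds hx') fun y hy => Prod.ext (e1 y hy).symm rfl)
  rwa [show α ((σ, σ, cc σ σ / 2), x - σ) = (x, (α ((σ, σ, cc σ σ / 2), x - σ)).2.1,
    (α ((σ, σ, cc σ σ / 2), x - σ)).2.2) from Prod.ext (e1 x hx') rfl] at this

end Pool.Agent.MP_1e9c11_gt.H69
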