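import Pool.Agent.MP_1e9c11_gt.H69.Flow

/-! A priori bounds and the involution property. -/

open MeasureTheory Set

namespace Pool.Agent.MP_1e9c11_gt.H69

open Pool.Agent.MP_1e9c11_gt.H81

theorem le_of_deriv' {g g' : ℝ → ℝ} {p q : ℝ} (hpq : p ≤ q)
    (hd : ∀ x ∈ Icc p q, HasDerivAt g (g' x) x) (h0 : ∀ x ∈ Icc p q, 0 ≤ g' x) : g p ≤ g q :=
  le_of_deriv (fun x hx => (hd x hx).hasDerivWithinAt) le_rfl hpq le_rfl
    fun x hx => h0 x (Ioo_subset_Icc_self hx)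

theorem cc_le_one (s t : ℝ) : cc s t ≤ 1 := Real.sqrt_le_one.2 (by nlinarith)

theorem vf_bounds {x : ℝ} (x0 : 0 ≤ x) (x1 : x ≤ 13 / 200) (t v : ℝ) :
    -(203 / 100) ≤ (vf (clamp (x, t, v))).2.1 ∧ (vf (clamp (x, t, v))).2.1 ≤ 0 ∧
      -(2 * x / (954 / 1000)) ≤ (vf (clamp (x, t, v))).2.2 ∧
      (vf (clamp (x, t, v))).2.2 ≤ -(2 * x) := by
  obtain ⟨a1, a2⟩ := cl_mem (p := 0) (q := 1 / 5) (by norm_num) t
  obtain ⟨b1, b2⟩ := cl_mem (p := 45 / 100) (q := 505 / 1000) (by norm_num) v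
  simp only [vf, clamp]
  rw [cl_eq (t := x) ⟨x0, by linarith⟩]
  generalize cl 0 (1 / 5) t = t at *
  generalize cl (45 / 100) (505 / 1000) v = v at *
  have c1 : 954 / 1000 ≤ cc x t := Real.le_sqrt_of_sq_le (by nlinarith)
  have c2 := cc_le_one x t
  generalize cc x t = c at *
  rw [neg_div, neg_div]
  refine ⟨neg_le_neg ?_, neg_nonpos.2 (div_nonneg (by linarith) (by linarith)),
    neg_le_neg (div_le_div_of_nonneg_left (by linarith) (by norm_num) c1), neg_le_neg ?_⟩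
  · rw [div_le_iff₀ (by linarith)]
    linarith
  · rw [le_div_iff₀ (by linarith)]
    nlinarith

namespace Sol

variable {σ x y : ℝ} {T u : ℝ → ℝ} (hS : Sol σ T u) (h0 : 0 ≤ σ) (h1 : σ ≤ 13 / 200)
include hS

theorem dT (x0 : 0 ≤ x) (x1 : x ≤ 1 / 5) : HasDerivAt T (vf (clamp (x, T x, u x))).2.1 x :=
  d_fst (d_snd (hS.ode x ⟨by linarith, by linarith⟩))

theorem du (x0 : 0 ≤ x) (x1 : x ≤ 1 / 5) : HasDerivAt u (vf (clamp (x, T x, u x))).2.2 x :=
  d_snd (d_snd (hS.ode x ⟨by linarith, by linarith⟩))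

include h1

theorem T_anti (x0 : 0 ≤ x) (hxy : x ≤ y) (y1 : y ≤ σ) : T y ≤ T x := by
  have := le_of_deriv' hxy (fun z hz => (hS.dT (x0.trans hz.1) (by linarith [hz.2])).neg)
    fun z hz => neg_nonneg.2 (vf_bounds (x0.trans hz.1) (by linarith [hz.2]) _ _).2.1
  simpa using this

theorem T_ge (hx : x ∈ Icc 0 σ) : σ ≤ T x := by
  have := hS.T_anti h1 hx.1 hx.2 le_rfl
  rwa [hS.T_init] at this

theorem T_le (hx : x ∈ Icc 0 σ) : T x ≤ 1 / 5 := by
  have := le_of_deriv' (g := fun z => T z + 203 / 100 * z) hx.2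
    (fun z hz => (hS.dT (hx.1.trans hz.1) (by linarith [hz.2])).add
      ((hasDerivAt_id' z).const_mul _))
    fun z hz => by linarith [(vf_bounds (hx.1.trans hz.1) (hz.2.trans h1) (T z) (u z)).1]
  simp only [hS.T_init] at this
  linarith [hx.1]

theorem u_ge (hx : x ∈ Icc 0 σ) : cc σ σ / 2 + σ ^ 2 - x ^ 2 ≤ u x := by
  have := le_of_deriv' (g := fun z => -(u z + z ^ 2)) hx.2
    (fun z hz => ((hS.du (hx.1.trans hz.1) (by linarith [hz.2])).add (hasDerivAt_pow 2 z)).neg)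
    fun z hz => by
      have := (vf_bounds (hx.1.trans hz.1) (hz.2.trans h1) (T z) (u z)).2.2.2
      norm_num
      linarith
  simp only [hS.u_init] at this
  linarith

theorem u_le (hx : x ∈ Icc 0 σ) : u x ≤ 5003 / 10000 := by
  have := le_of_deriv' (g := fun z => u z + z ^ 2 / (954 / 1000)) hx.2
    (fun z hz => (hS.du (hx.1.trans hz.1) (by linarith [hz.2])).add
      ((hasDerivAt_pow 2 z).div_const _))
    fun z hz => by
      have := (vf_bounds (hx.1.trans hz.1) (hz.2.trans h1) (T z) (u z)).2.2.1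
      norm_num at this ⊢
      linarith
  simp only [hS.u_init] at this
  have s0 := hx.1.trans hx.2
  have s2 : σ ^ 2 ≤ (13 / 200) ^ 2 := by gcongr
  have c : cc σ σ ≤ 1 - 2 * σ ^ 2 :=
    Real.sqrt_le_iff.2 ⟨by linarith, by nlinarith [sq_nonneg (σ ^ 2)]⟩
  linarith [sq_nonneg x]

theorem u_ge' (hx : x ∈ Icc 0 σ) : 4957 / 10000 ≤ u x := by
  have s0 := hx.1.trans hx.2
  have c : 9914 / 10000 ≤ cc σ σ := Real.le_sqrt_of_sq_le (by nlinarith)
  have := hS.u_ge h1 hx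
  nlinarith [hx.1, hx.2]

theorem box1 (hx : x ∈ Icc 0 σ) : (x, T x, u x) ∈ box :=
  ⟨⟨hx.1, by linarith [hx.2]⟩, ⟨(hx.1.trans hx.2).trans (hS.T_ge h1 hx), hS.T_le h1 hx⟩,
    by linarith [hS.u_ge' h1 hx], by linarith [hS.u_le h1 hx]⟩

theorem c_ge (hx : x ∈ Icc 0 σ) : 954 / 1000 ≤ cc x (T x) := by
  obtain ⟨-, ⟨a1, a2⟩, -⟩ := hS.box1 h1 hx
  simp only at a1 a2
  exact Real.le_sqrt_of_sq_le (by nlinarith [hx.1, hx.2])

theorem box2 (hx : x ∈ Icc 0 σ) : (T x, x, cc x (T x) - u x) ∈ box :=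
  ⟨(hS.box1 h1 hx).2.1, (hS.box1 h1 hx).1, by linarith [hS.u_le h1 hx, hS.c_ge h1 hx],
    by linarith [hS.u_ge' h1 hx, cc_le_one x (T x)]⟩

theorem invol (hx : x ∈ Icc 0 σ) : T (T x) = x ∧ u (T x) = cc x (T x) - u x := by
  obtain ⟨K, hK⟩ := vf_lip
  have dp : ∀ z ∈ Icc 0 σ, HasDerivAt (fun z => ((T z, T (T z), u (T z)) : R3))
      ((vf (clamp (z, T z, u z))).2.1 • (vf ∘ clamp) (T z, T (T z), u (T z))) z := fun z hz => by
    obtain ⟨⟨-, a0⟩, ⟨a1, a2⟩, -⟩ := hS.box1 h1 hz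
    simp only at a0 a1 a2
    exact (hS.ode (T z) ⟨by linarith, by linarith⟩).scomp z (hS.dT hz.1 a0)
  have dq : ∀ z ∈ Icc 0 σ, HasDerivAt (fun z => ((T z, z, cc z (T z) - u z) : R3))
      ((vf (clamp (z, T z, u z))).2.1 • (vf ∘ clamp) (T z, z, cc z (T z) - u z)) z := fun z hz => by
    have b1 := hS.box1 h1 hz
    have b2 := hS.box2 h1 hz
    have c := hS.c_ge h1 hz
    have d1 := hS.dT hz.1 b1.1.2
    have d2 := hS.du hz.1 b1.1.2
    obtain ⟨⟨-, a0⟩, ⟨a1, a2⟩, a3, a4⟩ := id b1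
    simp only at a0 a1 a2 a3 a4
    have d3 := ((((hasDerivAt_pow 2 z).const_mul 2).const_sub 1).sub
      ((d1.pow 2).const_mul 2)).sqrt (by simp only [Pi.sub_apply, Pi.pow_apply]; nlinarith [hz.1])
    rw [Function.comp, clamp_eq b2]
    rw [clamp_eq b1] at d1 d2 d3 ⊢
    refine (d1.prodMk ((hasDerivAt_id' z).prodMk (d3.sub d2))).congr_deriv ?_
    have n1 : cc z (T z) ≠ 0 := by linarith
    have n2 : cc z (T z) - u z - T z ≠ 0 := by linarith
    have n3 : u z - z ≠ 0 := by linarith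
    simp only [vf, Prod.smul_mk, smul_eq_mul, mul_one, cc_comm (T z) z, Pi.sub_apply, Pi.pow_apply,
      sub_sub_cancel]
    rw [show √(1 - 2 * z ^ 2 - 2 * T z ^ 2) = cc z (T z) from rfl]
    congr 2
    · field_simp
    · field_simp
      norm_num
      ring
  have := ODE_solution_unique_of_mem_Icc_left (K := 3 * K) (s := fun _ => univ)
    (v := fun z w => (vf (clamp (z, T z, u z))).2.1 • (vf ∘ clamp) w) (a := 0) (b := σ)
    (fun z hz => (((lipschitzWith_smul _).comp hK).weaken (by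
      obtain ⟨a1, a2, -⟩ := vf_bounds hz.1.le (hz.2.trans h1) (T z) (u z)
      gcongr
      rw [← NNReal.coe_le_coe, coe_nnnorm, Real.norm_eq_abs, abs_le]
      constructor <;> norm_num <;> linarith)).lipschitzOnWith)
    (fun z hz => (dp z hz).continuousAt.continuousWithinAt)
    (fun z hz => (dp z (Ioc_subset_Icc_self hz)).hasDerivWithinAt) (fun _ _ => trivial)
    (fun z hz => (dq z hz).continuousAt.continuousWithinAt)
    (fun z hz => (dq z (Ioc_subset_Icc_self hz)).hasDerivWithinAt) (fun _ _ => trivial)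
    (by simp only [hS.T_init, hS.u_init]; congr 2; ring) hx
  exact ⟨congrArg (·.2.1) this, congrArg (·.2.2) this⟩

include h0

theorem b_ge : σ ≤ T 0 := hS.T_ge h1 ⟨le_rfl, h0⟩

theorem all (hx : x ∈ Icc 0 (T 0)) : (x, T x, u x) ∈ box ∧ T x ∈ Icc 0 (T 0) ∧ T (T x) = x ∧
    u x + u (T x) = cc x (T x) := by
  rcases le_total x σ with g | g
  · have hx' : x ∈ Icc 0 σ := ⟨hx.1, g⟩
    obtain ⟨e1, e2⟩ := hS.invol h1 hx'
    exact ⟨hS.box1 h1 hx', ⟨h0.trans (hS.T_ge h1 hx'), hS.T_anti h1 le_rfl hx.1 g⟩, e1,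
      by linarith⟩
  · obtain ⟨z, hz, rfl⟩ := intermediate_value_Icc' h0 (f := T)
      (fun z hz => (hS.dT hz.1 (by linarith [hz.2])).continuousAt.continuousWithinAt)
      (show x ∈ Icc (T σ) (T 0) by rw [hS.T_init]; exact ⟨g, hx.2⟩)
    obtain ⟨e1, e2⟩ := hS.invol h1 hz
    rw [e1, e2, cc_comm (T z)]
    exact ⟨hS.box2 h1 hz, ⟨hz.1, hz.2.trans (hS.b_ge h0 h1)⟩, rfl, by ring⟩

theorem h_ge : 4999 / 10000 ≤ u 0 := by
  have s2 : σ ^ 2 ≤ (13 / 200) ^ 2 := by gcongr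
  have c : 9998 / 10000 - 2 * σ ^ 2 ≤ cc σ σ :=
    Real.le_sqrt_of_sq_le (by nlinarith [sq_nonneg σ])
  linarith [hS.u_ge h1 (x := 0) ⟨le_rfl, h0⟩]

theorem b_ge' : 196 / 100 * σ ≤ T 0 := by
  have := le_of_deriv' (g := fun z => -(T z + 96 / 100 * z)) h0
    (fun z hz => ((hS.dT hz.1 (by linarith [hz.2])).add ((hasDerivAt_id' z).const_mul _)).neg)
    fun z hz => by
      have a1 := hS.u_ge' h1 hz
      have a2 := hS.u_le h1 hz
      have a3 := hS.T_ge h1 hz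
      have a4 := hS.T_le h1 hz
      have a5 := hS.c_ge h1 hz
      have a6 := cc_le_one z (T z)
      have : 96 / 100 ≤ (u z - z) / (cc z (T z) - u z - T z) := by
        rw [le_div_iff₀ (by linarith)]
        linarith [hz.2]
      rw [clamp_eq (hS.box1 h1 hz)]
      simp only [vf, neg_div]
      linarith
  simp only [hS.T_init] at this
  linarith

end Sol

end Pool.Agent.MP_1e9c11_gt.H69
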