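import Pool.Agent.MP_1e9c11_gt.H69.Width

/-! Minimality and uniqueness. -/

open MeasureTheory Set

namespace Pool.Agent.MP_1e9c11_gt.H69

open Pool.Agent.MP_1e9c11_gt.H81

theorem eq_of_vol {A K : Set E3} (hA : IsCompact A) (hK : IsBody K) (h : A ⊆ K)
    (hv : volume K ≤ volume A) : K = A := by
  refine Subset.antisymm ?_ h
  have h1 : volume (K \ A) = 0 := by
    rw [measure_sdiff h hA.measurableSet.nullMeasurableSet hA.measure_lt_top.ne]
    exact tsub_eq_zero_of_le hv
  have h2 : interior K \ A = ∅ := (isOpen_interior.sdiff hA.isClosed).eq_empty_of_measure_zero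
    (measure_mono_null (sdiff_subset_sdiff_left interior_subset) h1)
  have h3 := closure_minimal (sdiff_eq_empty.1 h2) hA.isClosed
  rw [hK.2.1.closure_interior_eq_closure_of_nonempty_interior hK.2.2] at h3
  exact subset_closure.trans h3

theorem KR_swap (x y z : ℝ) (h : (x, y, z) ∈ KR) : (y, x, z) ∈ KR := fun a b => by
  obtain ⟨h1, h2, h3⟩ := h b a
  simp only at h1 h2 h3 ⊢
  refine ⟨?_, ?_, ?_⟩
  · convert h2 using 2; ring
  · convert h1 using 2; ring
  · convert h3 using 2 <;> ring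

theorem KE_tsym : TSym KE := fun _ hp =>
  ⟨KR_sym.flip _ _ _ hp, KR_sym.cyc _ _ _ hp, KR_swap _ _ _ hp⟩

theorem vol_neg {S : Set R3} (h : IsCompact S) : volume (-S) = volume S := by
  rw [← (mp_flp false false false).measure_preimage h.measurableSet.nullMeasurableSet]
  congr 1
  ext ⟨x, y, z⟩
  simp [flp, sg]

namespace Profile.Solves

variable {P : Profile} (hP : P.Solves)
include hP

theorem J_nonneg : 0 ≤ P.J := by
  have n1 : 0 ≤ ∫ x in (0 : ℝ)..P.s, (P.f x - x) ^ 2 :=
    intervalIntegral.integral_nonneg hP.s0 fun x _ => by positivity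
  have n2 := sub_nonneg.2 hP.s_le_a
  have n3 : 0 ≤ P.f 0 := by linarith [hP.h_ge]
  unfold Profile.J
  positivity

theorem half {K : Set R3} (hK : Td K) (hc : IsCompact K) (hh : Ch K) {a r l : ℝ}
    (ha : (a, a, a) ∈ K) (hr : (r, r, r) ∈ -K)
    (rmax : ∀ x y z : ℝ, (x, y, z) ∈ -K → x + y + z ≤ 3 * r) (hs : Real.sqrt 3 ≤ 3 * a + 3 * r)
    (har : r ≤ a) (hl0 : 2 / 5 ≤ l) (hl : l ≤ 41 / 100) :
    ENNReal.ofReal (2985 / 10000) ≤ volume K ∨
      (ENNReal.ofReal P.J ≤ volume K ∧ (volume K ≤ ENNReal.ofReal P.J → 3 * r ≤ P.f 0 ∧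
        ∀ x ∈ Icc 0 P.s, ridge K l x = P.f x ∧ Sl K l x (P.f x - x))) := by
  refine (star hK hc hh ha hr rmax hs har hl0 hl hP.s0 hP.s_le).imp_right ?_
  rintro ⟨h1, h2, h3, h4, h5⟩
  have l0 : 0 ≤ l := by linarith
  have s1 := hP.s_le
  have sp : 0 < P.s := hP.b_pos.trans_le hP.b_le
  have cont := ridge_cont hc hh.ne l0
  have hd := hP.dual cont (fun x hx t ht => ridge_pair hc hK hh l0
    (by nlinarith [hx.1, hx.2, ht.1, ht.2])) h1 hs
  have an := ridge_anti hc hh.ne l0 hP.s0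
  have p1 : 0 < ridge K l 0 ^ 2 - (ridge K l P.s - P.s) ^ 2 := by nlinarith
  have p2 := mul_nonneg (sub_nonneg.2 h2) p1.le
  have p3 : 0 ≤ ∫ x in (0 : ℝ)..P.s, (ridge K l x - P.f x) ^ 2 :=
    intervalIntegral.integral_nonneg hP.s0 fun x _ => by positivity
  refine ⟨(ENNReal.ofReal_le_ofReal (by linarith)).trans h5, fun g => ?_⟩
  have g1 := (ENNReal.ofReal_le_ofReal_iff hP.J_nonneg).1 (h5.trans g)
  have g2 : ∀ x ∈ Icc 0 P.s, ridge K l x = P.f x := fun x hx => by
    by_contra g3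
    have := intervalIntegral.integral_lt_integral_of_continuousOn_of_le_of_exists_lt
      (f := fun _ => 0) (g := fun x => (ridge K l x - P.f x) ^ 2) sp continuousOn_const
      ((cont.continuousOn.sub hP.f_cont).pow 2) (fun x _ => by positivity)
      ⟨x, hx, by have := sub_ne_zero.2 g3; positivity⟩
    simp only [intervalIntegral.integral_zero] at this
    linarith
  refine ⟨?_, fun x hx => ⟨g2 x hx, g2 x hx ▸ h4 x hx⟩⟩
  rw [← g2 0 ⟨le_rfl, hP.s0⟩]
  by_contra g3
  have := mul_pos (sub_pos.2 (not_le.1 g3)) p1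
  linarith

theorem core {K : Set R3} (hK : Td K) (hc : IsCompact K) (hh : Ch K) {a r : ℝ}
    (ha : (a, a, a) ∈ K) (hr : (r, r, r) ∈ -K)
    (rmax : ∀ x y z : ℝ, (x, y, z) ∈ -K → x + y + z ≤ 3 * r) (hs : Real.sqrt 3 ≤ 3 * a + 3 * r)
    (har : r ≤ a) : ENNReal.ofReal (2985 / 10000) ≤ volume K ∨
      (ENNReal.ofReal P.J ≤ volume K ∧ (volume K ≤ ENNReal.ofReal P.J → P.B ⊆ K)) := by
  rcases hP.half hK hc hh ha hr rmax hs har (l := 2 / 5) le_rfl (by norm_num) with h | h
  · exact Or.inl h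
  rcases hP.half hK hc hh ha hr rmax hs har (l := 41 / 100) (by norm_num) le_rfl with h' | h'
  · exact Or.inl h'
  refine Or.inr ⟨h.1, fun g => B_min P hc.isClosed hK (fun x hx => ?_) ?_⟩
  · obtain ⟨e1, θ, X, a1, a2, a3, a4⟩ := (h.2 g).2 x hx
    have a5 := ridge_ge hc a4 (41 / 100) x
    rw [((h'.2 g).2 x hx).1, max_self] at a5
    obtain rfl : θ = 0 := by linarith
    obtain rfl : X = P.f x - x := by linarith
    simpa using a4
  · have ea : Real.sqrt 3 = 3 * P.a + P.f 0 := by unfold Profile.a; ring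
    have a0 := hP.a_ge
    have a1 : P.a ≤ a := by linarith [(h.2 g).1]
    have := hK.move (a := 1) (b := 1) (c := 1) (d := P.a) (L := a)
      (hK.low3 (hK.top ha) (z := 0) (by simp) (by linarith)) (by simpa using ha) (by linarith) a1
    simpa using this

theorem alt {K : Set E3} (hK : IsBody K) (hT : TSym K) (hw : HasWidth K 1) :
    ENNReal.ofReal (2985 / 10000) ≤ volume K ∨ (ENNReal.ofReal P.J ≤ volume K ∧
      (volume K ≤ ENNReal.ofReal P.J → P.body ⊆ K ∨ -P.body ⊆ K)) := by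
  have t := td_of hK.2.1 hT
  have c := pre_compact hK.1
  have h := ch_of hK hw
  obtain ⟨a, a1, a2⟩ := exists_vertex t c h.ne
  obtain ⟨r, r1, r2⟩ := exists_vertex t.neg c.neg h.neg.ne
  have hs := vertex_sum h a2 r2
  rw [← vol_pre hK.1.isClosed]
  rcases le_total r a with g | g
  · refine (hP.core t c h a1 r1 r2 hs g).imp_right fun k => ⟨k.1, fun e => Or.inl fun p hp => ?_⟩
    rw [← mk3_co p] at hp ⊢
    exact k.2 e hp
  · have := hP.core t.neg c.neg h.neg r1 (by rwa [neg_neg]) (by rwa [neg_neg]) (by linarith) g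
    rw [vol_neg c] at this
    refine this.imp_right fun k => ⟨k.1, fun e => Or.inr fun p hp => ?_⟩
    rw [Set.mem_neg, ← mk3_co (-p)] at hp
    have h1 : mk3 (-co (-p)) ∈ K := k.2 e hp
    rwa [← co_lin.map_neg, neg_neg, mk3_co] at h1

theorem J_le : P.J ≤ 2984541 / 10000000 := by
  rcases hP.alt KE_body KE_tsym KE_width with h | h
  · have := (ENNReal.ofReal_le_ofReal_iff (by norm_num)).1 (h.trans KE_vol)
    norm_num at this
  · exact (ENNReal.ofReal_le_ofReal_iff (by norm_num)).1 (h.1.trans KE_vol)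

theorem body_le : volume P.body ≤ ENNReal.ofReal P.J := by
  rw [← vol_pre (body_closed P)]
  exact hP.vol_le

theorem minimal {K : Set E3} (hK : IsBody K) (hT : TSym K) (hw : HasWidth K 1) :
    volume P.body ≤ volume K ∧ (volume K = volume P.body → K = P.body ∨ K = -P.body) := by
  have j := hP.J_le
  rcases hP.alt hK hT hw with h | h
  · have h1 : volume P.body < volume K := hP.body_le.trans_lt
      (lt_of_lt_of_le ((ENNReal.ofReal_lt_ofReal_iff (by norm_num)).2 (by linarith)) h)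
    exact ⟨h1.le, fun e => absurd e h1.ne'⟩
  · refine ⟨hP.body_le.trans h.1, fun e => (h.2 (e.le.trans hP.body_le)).imp
      (fun g => eq_of_vol hP.body_compact hK g e.le) fun g => eq_of_vol hP.body_compact.neg hK g ?_⟩
    rw [Measure.measure_neg]
    exact e.le

end Profile.Solves

end Pool.Agent.MP_1e9c11_gt.H69
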