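import Pool.Agent.MP_1e9c11_gt.H69.Star

/-! Consequences of the equations of the edge curve. -/

open MeasureTheory Set

namespace Pool.Agent.MP_1e9c11_gt.H69

open Pool.Agent.MP_1e9c11_gt.H81

theorem le_of_deriv {g g' : ℝ → ℝ} {u v p q : ℝ}
    (hd : ∀ x ∈ Icc u v, HasDerivWithinAt g (g' x) (Icc u v) x) (hp : u ≤ p) (hpq : p ≤ q)
    (hq : q ≤ v) (h0 : ∀ x ∈ Ioo p q, 0 ≤ g' x) : g p ≤ g q := by
  have hs : Icc p q ⊆ Icc u v := Icc_subset_Icc hp hq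
  refine monotoneOn_of_hasDerivWithinAt_nonneg (convex_Icc p q) (f' := g')
    (fun x hx => ((hd x (hs hx)).mono hs).continuousWithinAt)
    (fun x hx => (hd x (hs (interior_subset hx))).mono (interior_subset.trans hs))
    (fun x hx => h0 x (by simpa using hx)) ⟨le_rfl, hpq⟩ ⟨hpq, le_rfl⟩ hpq

theorem cc_comm (s t : ℝ) : cc s t = cc t s := by
  unfold cc
  congr 1
  ring

theorem cc_nonneg (s t : ℝ) : 0 ≤ cc s t := Real.sqrt_nonneg _

theorem cc_le {s t s' t' : ℝ} (h : s' ^ 2 + t' ^ 2 ≤ s ^ 2 + t ^ 2) : cc s t ≤ cc s' t' :=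
  Real.sqrt_le_sqrt (by linarith)

theorem cc_ge {s t : ℝ} (s0 : 0 ≤ s) (s1 : s ≤ 13 / 100) (t0 : 0 ≤ t) (t1 : t ≤ 13 / 100) :
    965 / 1000 ≤ cc s t := Real.le_sqrt_of_sq_le (by nlinarith)

theorem cc_ge' {s : ℝ} (s0 : 0 ≤ s) (s1 : s ≤ 13 / 100) : 98 / 100 ≤ cc s 0 :=
  Real.le_sqrt_of_sq_le (by nlinarith)

theorem cc_le' {s : ℝ} (s0 : 0 ≤ s) (s1 : s ≤ 13 / 100) : cc s 0 ≤ 1 - s ^ 2 :=
  Real.sqrt_le_iff.2 ⟨by nlinarith, by nlinarith [sq_nonneg (s ^ 2)]⟩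

theorem cc_deriv {x t : ℝ} (h : 2 * x ^ 2 + 2 * t ^ 2 < 1) :
    HasDerivAt (fun x => cc x t) (-(2 * x) / cc x t) x := by
  have h1 : HasDerivAt (fun x : ℝ => 1 - 2 * x ^ 2 - 2 * t ^ 2) (-(4 * x)) x := by
    have := (((hasDerivAt_pow 2 x).const_mul 2).const_sub 1).sub_const (2 * t ^ 2)
    refine this.congr_deriv ?_
    norm_num
    ring
  refine (h1.sqrt (by linarith)).congr_deriv ?_
  unfold cc
  ring

theorem cc_mono {x y t : ℝ} (h0 : 0 ≤ y) (h : y ≤ x) (hx : 2 * x ^ 2 + 2 * t ^ 2 < 1) :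
    cc y 0 - cc y t ≤ cc x 0 - cc x t := by
  have hy : y ^ 2 ≤ x ^ 2 := by gcongr
  have t0 := sq_nonneg t
  have e1 := cc_sq (s := x) (t := 0) (by linarith)
  have e2 := cc_sq (s := x) (t := t) (by linarith)
  have e3 := cc_sq (s := y) (t := 0) (by linarith)
  have e4 := cc_sq (s := y) (t := t) (by linarith)
  have l1 : cc x 0 ≤ cc y 0 := cc_le (by linarith)
  have l2 : cc x t ≤ cc y t := cc_le (by linarith)
  have l3 : cc y t ≤ cc y 0 := cc_le (by linarith)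
  have l4 : 0 < cc x t := Real.sqrt_pos.2 (by linarith)
  have l5 := cc_nonneg x 0
  by_contra g
  have a1 := mul_lt_mul_of_pos_right (not_le.1 g) (show 0 < cc x 0 + cc x t by linarith)
  have a2 := mul_le_mul_of_nonneg_left (show cc x 0 + cc x t ≤ cc y 0 + cc y t by linarith)
    (sub_nonneg.2 l3)
  nlinarith

theorem arc_tan {x y : ℝ} (hx : 2 * x ^ 2 ≤ 1) (y0 : 0 ≤ y) (y1 : y ≤ 13 / 100) :
    cc x 0 + 2 * y / cc y 0 * x ≤ cc y 0 + 2 * y / cc y 0 * y := by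
  have e1 := cc_sq (s := x) (t := 0) (by linarith)
  have e2 := cc_sq (s := y) (t := 0) (by nlinarith)
  have l := cc_ge' y0 y1
  have l0 : 0 < cc y 0 := by linarith
  rw [← sub_nonneg, show cc y 0 + 2 * y / cc y 0 * y - (cc x 0 + 2 * y / cc y 0 * x) =
    (cc y 0 ^ 2 + 2 * y * y - cc x 0 * cc y 0 - 2 * y * x) / cc y 0 by field_simp; ring]
  refine div_nonneg ?_ l0.le
  nlinarith [sq_nonneg (x - y), sq_nonneg (cc x 0 - cc y 0)]

namespace Profile.Solves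

variable {P : Profile} (hP : P.Solves) {x y t : ℝ}
include hP

theorem b1 : P.b ≤ 13 / 100 := hP.b_le.trans hP.s_le

theorem s0 : 0 ≤ P.s := hP.b_pos.le.trans hP.b_le

theorem mem0 : (0 : ℝ) ∈ Icc 0 P.b := ⟨le_rfl, hP.b_pos.le⟩

theorem memb : P.b ∈ Icc 0 P.b := ⟨hP.b_pos.le, le_rfl⟩

theorem T_b : P.T P.b = 0 := by rw [← hP.T_zero, hP.T_T 0 hP.mem0]

theorem c_ge (hx : x ∈ Icc 0 P.b) (ht : t ∈ Icc 0 P.b) : 965 / 1000 ≤ cc x t :=
  cc_ge hx.1 (hx.2.trans hP.b1) ht.1 (ht.2.trans hP.b1)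

theorem f_b : P.f P.b = cc P.b 0 - P.f 0 := hP.arc _ ⟨le_rfl, hP.b_le⟩

theorem f_anti (hx : 0 ≤ x) (hxy : x ≤ y) (hy : y ≤ P.b) : P.f y ≤ P.f x := by
  have := le_of_deriv (fun z hz => (hP.f_deriv z hz).neg) hx hxy hy fun z hz => by
    rw [neg_div, neg_neg]
    exact div_nonneg (by linarith [hz.1]) (cc_nonneg _ _)
  simpa using this

theorem h_aux {c : ℝ} (c0 : 0 < c) (hc : ∀ x ∈ Icc 0 P.b, c ≤ cc x (P.T x)) :
    2 * P.f 0 ≤ cc P.b 0 + P.b ^ 2 / c := by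
  have := le_of_deriv (g := fun z => P.f z + z ^ 2 / c)
    (fun z hz => (hP.f_deriv z hz).add ((hasDerivAt_pow 2 z).div_const c).hasDerivWithinAt)
    le_rfl hP.b_pos.le le_rfl fun z hz => by
      have h1 := hc z (Ioo_subset_Icc_self hz)
      have h2 : 2 * z / cc z (P.T z) ≤ 2 * z / c :=
        div_le_div_of_nonneg_left (by linarith [hz.1]) c0 h1
      rw [neg_div]
      simpa using h2
  have e := hP.f_b
  simp only [ne_eq, OfNat.ofNat_ne_zero, not_false_eq_true, zero_pow, zero_div, add_zero] at this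
  linarith

theorem h_le : P.f 0 ≤ 5004 / 10000 := by
  have h1 := hP.h_aux (c := 965 / 1000) (by norm_num) fun x hx => hP.c_ge hx (hP.T_mem x hx)
  have h2 := cc_le' hP.b_pos.le hP.b1
  have h3 : P.b ^ 2 ≤ (13 / 100) ^ 2 := by
    have := hP.b_pos
    have := hP.b1
    gcongr
  linarith

theorem f_ge (hx : x ∈ Icc 0 P.s) : 479 / 1000 ≤ P.f x := by
  have := hP.h_le
  rcases le_total x P.b with g | g
  · have h1 := hP.f_anti hx.1 g le_rfl
    have h2 := cc_ge' hP.b_pos.le hP.b1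
    linarith [hP.f_b]
  · have h2 := cc_ge' hx.1 (hx.2.trans hP.s_le)
    linarith [hP.arc x ⟨g, hx.2⟩]

theorem sub (hx : x ∈ Icc 0 P.b) : x ∈ Icc 0 P.s := ⟨hx.1, hx.2.trans hP.b_le⟩

theorem g_ge (hx : x ∈ Icc 0 P.s) : 349 / 1000 ≤ P.f x - x := by
  linarith [hP.f_ge hx, hx.2, hP.s_le]

theorem T_anti (hx : 0 ≤ x) (hxy : x ≤ y) (hy : y ≤ P.b) : P.T y ≤ P.T x := by
  have := le_of_deriv (fun z hz => (hP.T_deriv z hz).neg) hx hxy hy fun z hz => by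
    have hz' : z ∈ Icc 0 P.b := ⟨hx.trans hz.1.le, hz.2.le.trans hy⟩
    rw [neg_div, neg_neg]
    exact div_nonneg (by linarith [hP.g_ge (hP.sub hz')])
      (by linarith [hP.g_ge (hP.sub (hP.T_mem z hz'))])
  simpa using this

theorem T_lip (hx : 0 ≤ x) (hxy : x ≤ y) (hy : y ≤ P.b) : P.T x - P.T y ≤ 3 / 2 * (y - x) := by
  have := le_of_deriv (g := fun z => P.T z + 3 / 2 * z) (fun z hz => (hP.T_deriv z hz).add
    ((hasDerivAt_id' z).const_mul (3 / 2)).hasDerivWithinAt) hx hxy hy fun z hz => by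
    have hz' : z ∈ Icc 0 P.b := ⟨hx.trans hz.1.le, hz.2.le.trans hy⟩
    have h1 := hP.g_ge (hP.sub (hP.T_mem z hz'))
    have h2 := hP.f_anti le_rfl hz'.1 hz'.2
    have h3 : (P.f z - z) / (P.f (P.T z) - P.T z) ≤ 3 / 2 := by
      rw [div_le_iff₀ (by linarith)]
      linarith [hP.h_le, hz'.1]
    rw [neg_div]
    linarith
  linarith

theorem pair (hx : x ∈ Icc 0 P.b) (ht : t ∈ Icc 0 P.b) : cc x t ≤ P.f x + P.f t := by
  have hT := hP.T_mem t ht
  have b1 := hP.b1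
  have hd : ∀ z ∈ Icc 0 P.b, HasDerivWithinAt (fun z => P.f z - cc z t)
      (-(2 * z) / cc z (P.T z) - -(2 * z) / cc z t) (Icc 0 P.b) z := fun z hz =>
    (hP.f_deriv z hz).sub (cc_deriv (by nlinarith [hz.1, hz.2, ht.1, ht.2])).hasDerivWithinAt
  have e := hP.contact t ht
  rw [cc_comm] at e
  rcases le_total (P.T t) x with g | g
  · have := le_of_deriv hd hT.1 g hx.2 fun z hz => by
      have hz' : z ∈ Icc 0 P.b := ⟨hT.1.trans hz.1.le, hz.2.le.trans hx.2⟩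
      have h1 := hP.T_anti hT.1 hz.1.le hz'.2
      rw [hP.T_T t ht] at h1
      have h2 : cc z t ≤ cc z (P.T z) := cc_le (by nlinarith [(hP.T_mem z hz').1])
      have h3 := div_le_div_of_nonneg_left (a := 2 * z) (by linarith [hz'.1])
        (by linarith [hP.c_ge hz' ht]) h2
      rw [neg_div, neg_div]
      linarith
    linarith
  · have := le_of_deriv (fun z hz => (hd z hz).neg) hx.1 g hT.2 fun z hz => by
      have hz' : z ∈ Icc 0 P.b := ⟨hx.1.trans hz.1.le, hz.2.le.trans hT.2⟩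
      have h1 := hP.T_anti hz'.1 hz.2.le hT.2
      rw [hP.T_T t ht] at h1
      have h2 : cc z (P.T z) ≤ cc z t := cc_le (by nlinarith [ht.1])
      have h3 := div_le_div_of_nonneg_left (a := 2 * z) (by linarith [hz'.1])
        (by linarith [hP.c_ge hz' (hP.T_mem z hz')]) h2
      rw [neg_div, neg_div]
      linarith
    simp only [Pi.neg_apply] at this
    linarith

theorem h_ge : 1 / 2 ≤ P.f 0 := by
  have := hP.pair hP.mem0 hP.mem0
  rw [show cc 0 0 = 1 by simp [cc]] at this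
  linarith

theorem a_ge : 4105 / 10000 ≤ P.a := by
  unfold Profile.a
  linarith [sqrt3_ge, hP.h_le]

theorem a_le : P.a ≤ 4107 / 10000 := by
  unfold Profile.a
  linarith [sqrt3_le, hP.h_ge]

theorem pair2 {z : ℝ} (hx : P.b ≤ x) (hxt : 2 * x ^ 2 + 2 * t ^ 2 < 1)
    (h : cc P.b t ≤ P.f P.b + z) : cc x t ≤ cc x 0 - P.f 0 + z := by
  have := cc_mono hP.b_pos.le hx hxt
  linarith [hP.f_b]

theorem slope_mono (hx : 0 ≤ x) (hxy : x ≤ y) (hy : y ≤ P.b) :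
    2 * x / cc x (P.T x) ≤ 2 * y / cc y (P.T y) := by
  have hx' : x ∈ Icc 0 P.b := ⟨hx, hxy.trans hy⟩
  have hy' : y ∈ Icc 0 P.b := ⟨hx.trans hxy, hy⟩
  have c1 := hP.c_ge hx' (hP.T_mem x hx')
  have c2 := hP.c_ge hy' (hP.T_mem y hy')
  have b1 := hP.b1
  obtain ⟨u0, u1⟩ := hP.T_mem x hx'
  obtain ⟨v0, v1⟩ := hP.T_mem y hy'
  have e1 := cc_sq (s := x) (t := P.T x) (by nlinarith)
  have e2 := cc_sq (s := y) (t := P.T y) (by nlinarith)
  have l := hP.T_lip hx hxy hy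
  have l' := hP.T_anti hx hxy hy
  rw [div_le_div_iff₀ (by linarith) (by linarith)]
  refine (abs_le_of_sq_le_sq' ?_ (by have := hy'.1; positivity)).2
  rw [mul_pow (2 * x), mul_pow (2 * y), e1, e2]
  generalize P.T x = u at *
  generalize P.T y = v at *
  have a1 : u ^ 2 - v ^ 2 ≤ 39 / 100 * (y - x) := by nlinarith
  have a2 : x ^ 2 * (u ^ 2 - v ^ 2) ≤ x ^ 2 * (39 / 100 * (y - x)) := by gcongr
  have a3 : x ^ 2 * (y - x) ≤ 13 / 100 * (y ^ 2 - x ^ 2) := by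
    have : x ^ 2 ≤ 13 / 100 * (y + x) := by nlinarith
    nlinarith
  have a4 : u ^ 2 * (y ^ 2 - x ^ 2) ≤ 1 / 50 * (y ^ 2 - x ^ 2) :=
    mul_le_mul_of_nonneg_right (by nlinarith) (by nlinarith)
  have a5 : 0 ≤ y ^ 2 - x ^ 2 := by nlinarith
  nlinarith

theorem tan1 (hx : x ∈ Icc 0 P.b) (hy : y ∈ Icc 0 P.b) :
    P.f x + 2 * y / cc y (P.T y) * x ≤ P.f y + 2 * y / cc y (P.T y) * y := by
  have hd : ∀ z ∈ Icc 0 P.b, HasDerivWithinAt (fun z => P.f z + 2 * y / cc y (P.T y) * z)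
      (-(2 * z) / cc z (P.T z) + 2 * y / cc y (P.T y) * 1) (Icc 0 P.b) z := fun z hz =>
    (hP.f_deriv z hz).add ((hasDerivAt_id' z).const_mul _).hasDerivWithinAt
  rcases le_total x y with g | g
  · exact le_of_deriv hd hx.1 g hy.2 fun z hz => by
      have := hP.slope_mono (hx.1.trans hz.1.le) hz.2.le hy.2
      rw [neg_div]
      linarith
  · have := le_of_deriv (fun z hz => (hd z hz).neg) hy.1 g hx.2 fun z hz => by
      have := hP.slope_mono hy.1 hz.1.le (hz.2.le.trans hx.2)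
      rw [neg_div]
      linarith
    simp only [Pi.neg_apply] at this
    linarith

theorem nu_mono (hx : 0 ≤ x) (hxy : x ≤ y) (hy : y ≤ P.s) : 2 * x / cc x 0 ≤ 2 * y / cc y 0 := by
  have h1 := cc_ge' (hx.trans hxy) (hy.trans hP.s_le)
  exact div_le_div₀ (by linarith) (by linarith) (by linarith) (cc_le (by nlinarith))

theorem nu_le : 2 * P.s / cc P.s 0 ≤ 1 / 2 := by
  have h1 := cc_ge' hP.s0 hP.s_le
  rw [div_le_iff₀ (by linarith)]
  linarith [hP.s_le]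

theorem tan_vertex : P.a + 2 * P.s / cc P.s 0 * P.a = P.f P.s + 2 * P.s / cc P.s 0 * P.s := by
  have h1 := cc_ge' hP.s0 hP.s_le
  have h2 : cc P.s 0 ≠ 0 := by linarith [h1]
  have := hP.tangent
  field_simp
  linarith

theorem tan (hy : y ∈ Icc 0 P.s) : ∃ m : ℝ, 0 ≤ m ∧ m ≤ 2 * P.s / cc P.s 0 ∧
    (y = P.s → m = 2 * P.s / cc P.s 0) ∧ ∀ x ∈ Icc 0 P.s, P.f x + m * x ≤ P.f y + m * y := by
  have s1 := hP.s_le
  have b0 := hP.b_pos
  have key : ∀ x ∈ Icc P.b P.s, ∀ y ∈ Icc P.b P.s,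
      P.f x + 2 * y / cc y 0 * x ≤ P.f y + 2 * y / cc y 0 * y := fun x hx y hy => by
    rw [hP.arc x hx, hP.arc y hy]
    linarith [arc_tan (x := x) (y := y) (by nlinarith [hx.1, hx.2]) (by linarith [hy.1])
      (by linarith [hy.2])]
  rcases lt_or_ge y P.b with g | g
  · have m1 := hP.slope_mono hy.1 g.le le_rfl
    rw [hP.T_b] at m1
    refine ⟨2 * y / cc y (P.T y), div_nonneg (by linarith [hy.1]) (cc_nonneg _ _),
      m1.trans (hP.nu_mono b0.le hP.b_le le_rfl), fun e => by linarith [hP.b_le], fun x hx => ?_⟩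
    rcases le_total x P.b with g' | g'
    · exact hP.tan1 ⟨hx.1, g'⟩ ⟨hy.1, g.le⟩
    · have a1 := key x ⟨g', hx.2⟩ P.b ⟨le_rfl, hP.b_le⟩
      have a2 := hP.tan1 hP.memb ⟨hy.1, g.le⟩
      nlinarith [mul_nonneg (sub_nonneg.2 m1) (sub_nonneg.2 g')]
  · refine ⟨2 * y / cc y 0, div_nonneg (by linarith [hy.1]) (cc_nonneg _ _),
      hP.nu_mono hy.1 hy.2 le_rfl, fun e => by rw [e], fun x hx => ?_⟩
    rcases le_total x P.b with g' | g'
    · have a1 := hP.tan1 ⟨hx.1, g'⟩ hP.memb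
      rw [hP.T_b] at a1
      have a2 := key P.b ⟨le_rfl, hP.b_le⟩ y ⟨g, hy.2⟩
      have m1 := hP.nu_mono b0.le g hy.2
      nlinarith [mul_nonneg (sub_nonneg.2 m1) (sub_nonneg.2 g')]
    · exact key x ⟨g', hx.2⟩ y ⟨g, hy.2⟩

theorem f_cont1 : ContinuousOn P.f (Icc 0 P.b) := fun x hx => (hP.f_deriv x hx).continuousWithinAt

theorem T_cont : ContinuousOn P.T (Icc 0 P.b) := fun x hx => (hP.T_deriv x hx).continuousWithinAt

theorem f_cont2 : ContinuousOn P.f (Icc P.b P.s) :=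
  ContinuousOn.congr (f := fun x => cc x 0 - P.f 0) (by unfold cc; fun_prop) hP.arc

theorem f_cont : ContinuousOn P.f (Icc 0 P.s) := by
  rw [← Icc_union_Icc_eq_Icc hP.b_pos.le hP.b_le]
  exact hP.f_cont1.union_of_isClosed hP.f_cont2 isClosed_Icc isClosed_Icc

end Profile.Solves

end Pool.Agent.MP_1e9c11_gt.H69
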