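import Pool.Agent.MP_1e9c11_gt.H81.Upper

/-! Convex sets with the full symmetry of the regular tetrahedron: slices and volume. -/

open MeasureTheory Set

namespace Pool.Agent.MP_1e9c11_gt.H69

open Pool.Agent.MP_1e9c11_gt.H81

/-- Convex sets in coordinate space with the full tetrahedral symmetry. -/
structure Td (K : Set R3) : Prop where
  sym : Sym K
  swap : ∀ x y z : ℝ, (x, y, z) ∈ K → (y, x, z) ∈ K
  conv : Convex ℝ K

namespace Td

variable {K : Set R3} (hK : Td K) {x y z w x' y' z' d : ℝ}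
include hK

theorem comb (h : (x, y, z) ∈ K) (h' : (x', y', z') ∈ K) {t : ℝ} (h0 : 0 ≤ t) (h1 : t ≤ 1) :
    (x + t * (x' - x), y + t * (y' - y), z + t * (z' - z)) ∈ K :=
  hK.conv.add_smul_sub_mem h h' ⟨h0, h1⟩

theorem swap23 (h : (x, y, z) ∈ K) : (x, z, y) ∈ K := hK.sym.cyc _ _ _ (hK.swap _ _ _ h)

theorem swap13 (h : (x, y, z) ∈ K) : (z, y, x) ∈ K := hK.swap _ _ _ (hK.sym.cyc _ _ _ h)

theorem move {a b c L : ℝ} (h : (x, y, z) ∈ K) (h' : (x + L * a, y + L * b, z + L * c) ∈ K)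
    (h0 : 0 ≤ d) (h1 : d ≤ L) : (x + d * a, y + d * b, z + d * c) ∈ K := by
  rcases (h0.trans h1).eq_or_lt with e | e
  · obtain rfl : d = 0 := by linarith
    simpa using h
  · have := hK.comb h h' (div_nonneg h0 e.le) ((div_le_one e).2 h1)
    convert this using 2
    · field_simp; ring
    · congr 1 <;> (field_simp; ring)

theorem mv23 (h : (x, y, z) ∈ K) (h0 : 0 ≤ d) (h1 : d ≤ z - y) : (x, y + d, z - d) ∈ K := by
  have := hK.move (a := 0) (b := 1) (c := -1) h (by simpa using hK.swap23 h) h0 h1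
  simpa [sub_eq_add_neg] using this

theorem mv12 (h : (x, y, z) ∈ K) (h0 : 0 ≤ d) (h1 : d ≤ x + y) : (x - d, y - d, z) ∈ K := by
  have := hK.move (a := -1) (b := -1) (c := 0) h
    (by simpa using hK.sym.flip _ _ _ (hK.swap _ _ _ h)) h0 h1
  simpa [sub_eq_add_neg] using this

theorem low2 (h : (x, w, z) ∈ K) (h0 : |x| ≤ y) (h1 : y ≤ w) : (x, y, z) ∈ K := by
  obtain ⟨a1, a2⟩ := abs_le.1 h0
  have e1 := hK.move (a := 1) (b := -1) (c := 0) (d := (w - y) / 2) (L := w - x) h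
    (by simpa using hK.swap _ _ _ h) (by linarith) (by linarith)
  have e2 := hK.mv12 (d := (w - y) / 2) e1 (by linarith) (by linarith)
  convert e2 using 2
  · ring
  · congr 1 <;> ring

theorem low3 (h : (x, y, w) ∈ K) (h0 : |x| ≤ z) (h1 : z ≤ w) : (x, y, z) ∈ K :=
  hK.swap23 (hK.low2 (hK.swap23 h) h0 h1)

theorem diag (h : (x, x, z) ∈ K) (h0 : |y| ≤ |x|) : (y, y, z) ∈ K := by
  have h' : (|x|, |x|, z) ∈ K := by
    rcases abs_cases x with ⟨e, -⟩ | ⟨e, -⟩ <;> rw [e]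
    · exact h
    · exact hK.sym.flip _ _ _ h
  obtain ⟨a1, a2⟩ := abs_le.1 h0
  simpa using hK.mv12 (d := |x| - y) h' (by linarith) (by linarith)

theorem mid (h : (x, y, z) ∈ K) : ((x + y) / 2, (x + y) / 2, z) ∈ K := by
  have := hK.comb h (hK.swap _ _ _ h) (t := 1 / 2) (by norm_num) (by norm_num)
  convert this using 2
  · ring
  · congr 1 <;> ring

theorem top (h : (x, y, z) ∈ K) : (0, 0, z) ∈ K := hK.diag (hK.mid h) (by simp)

theorem cen (h : (x, y, z) ∈ K) : ((x + y + z) / 3, (x + y + z) / 3, (x + y + z) / 3) ∈ K := by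
  have e1 := hK.comb h (hK.sym.cyc _ _ _ h) (t := 1 / 2) (by norm_num) (by norm_num)
  have := hK.comb e1 (hK.sym.cyc _ _ _ (hK.sym.cyc _ _ _ h)) (t := 1 / 3) (by norm_num)
    (by norm_num)
  convert this using 2
  · ring
  · congr 1 <;> ring

theorem neg : Td (-K) where
  sym := ⟨fun x y z h => hK.sym.flip (-x) (-y) (-z) h, fun x y z h => hK.sym.cyc (-x) (-y) (-z) h⟩
  swap x y z h := hK.swap (-x) (-y) (-z) h
  conv := hK.conv.neg

theorem mem_neg (h : (-x, y, z) ∈ K) : (x, y, z) ∈ -K := hK.sym.flip2 _ _ _ h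

end Td

/-- The slice at `x` contains a pentagon of effective size `G`. -/
def Sl (K : Set R3) (l x G : ℝ) : Prop :=
  ∃ θ X : ℝ, 0 ≤ θ ∧ θ ≤ X ∧ G ≤ X + l * θ ∧ (x, x + θ, x + X) ∈ K

theorem Sl.comb {K : Set R3} (hK : Td K) {l p q G G' t : ℝ} (h : Sl K l p G) (h' : Sl K l q G')
    (h0 : 0 ≤ t) (h1 : t ≤ 1) : Sl K l (p + t * (q - p)) (G + t * (G' - G)) := by
  obtain ⟨θ, X, a1, a2, a3, a4⟩ := h
  obtain ⟨θ', X', b1, b2, b3, b4⟩ := h'
  refine ⟨θ + t * (θ' - θ), X + t * (X' - X), by nlinarith, by nlinarith, by nlinarith, ?_⟩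
  convert hK.comb a4 b4 h0 h1 using 2
  congr 1 <;> ring

theorem Sl.thin {K : Set R3} {l x z : ℝ} (h : (x, x, z) ∈ K) (hz : x ≤ z) : Sl K l x (z - x) :=
  ⟨0, z - x, le_rfl, by linarith, by simp, by simpa using h⟩

theorem Sl.neg {K : Set R3} (hK : Td K) {l G : ℝ} (h : Sl K l 0 G) : Sl (-K) l 0 G := by
  obtain ⟨θ, X, a1, a2, a3, a4⟩ := h
  exact ⟨θ, X, a1, a2, a3, hK.mem_neg (by simpa using a4)⟩

/-- One twenty-fourth, doubled, of the set. -/
def part (K : Set R3) : Set R3 := {p | p ∈ K ∧ 0 < p.1 ∧ p.1 < p.2.1 ∧ p.1 < p.2.2}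

theorem part_meas {K : Set R3} (h : IsClosed K) : MeasurableSet (part K) :=
  h.measurableSet.inter (by
    refine IsOpen.measurableSet (s := {p : R3 | 0 < p.1 ∧ p.1 < p.2.1 ∧ p.1 < p.2.2}) ?_
    refine IsOpen.and (isOpen_lt ?_ ?_) (IsOpen.and (isOpen_lt ?_ ?_) (isOpen_lt ?_ ?_)) <;>
      fun_prop)

theorem slice_ge {K : Set R3} (hK : Td K) {l x G : ℝ} (hl0 : 0 ≤ l) (hl : l ≤ 41 / 100)
    (hx : 0 < x) (hG : 0 ≤ G) (h : Sl K l x G) :
    ENNReal.ofReal (G ^ 2 / 2) ≤ volume (Prod.mk x ⁻¹' part K) := by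
  obtain ⟨θ, X, a1, a2, a3, a4⟩ := h
  rcases (a1.trans a2).eq_or_lt with e | e
  · obtain rfl : G = 0 := by nlinarith
    simp
  have hk : (X - θ) / X * X = X - θ := by field_simp
  have k0 : 0 ≤ (X - θ) / X := div_nonneg (by linarith) e.le
  have k1 : (X - θ) / X ≤ 1 := (div_le_one e).2 (by linarith)
  generalize (X - θ) / X = k at hk k0 k1
  have hv := volume_regionBetween_eq_integral (μ := volume) (f := fun _ : ℝ => x)
    (g := fun y => x + X - k * (y - x)) (s := Ioo x (x + X))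
    ((continuous_const.integrableOn_Icc).mono_set Ioo_subset_Icc_self)
    ((Continuous.integrableOn_Icc (by fun_prop)).mono_set Ioo_subset_Icc_self) measurableSet_Ioo
    (fun y hy => by nlinarith [hy.1, hy.2])
  have hi : ∫ y in Ioo x (x + X), ((fun y => x + X - k * (y - x)) - fun _ : ℝ => x) y =
      X * (X + θ) / 2 := by
    rw [← integral_Ioc_eq_integral_Ioo, ← intervalIntegral.integral_of_le (by linarith)]
    have := int_poly 2 (fun i => ([X + k * x, -k] : List ℝ).getD i 0) x (x + X)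
    rw [show ((fun y => x + X - k * (y - x)) - fun _ : ℝ => x) = fun y => ∑ i ∈ Finset.range 2,
      ([X + k * x, -k] : List ℝ).getD i 0 * y ^ i by
        funext y; simp [Finset.sum_range_succ]; ring, this]
    simp [Finset.sum_range_succ]
    linear_combination (-X / 2) * hk
  rw [hi] at hv
  refine le_trans (ENNReal.ofReal_le_ofReal ?_) (hv.symm.le.trans (measure_mono ?_))
  · have b1 : G ^ 2 ≤ (X + l * θ) ^ 2 := by gcongr
    have b2 : l * θ ≤ 41 / 100 * θ := by gcongr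
    have b3 : (X + l * θ) ^ 2 ≤ (X + 41 / 100 * θ) ^ 2 := by gcongr
    nlinarith [mul_le_mul_of_nonneg_left a2 a1]
  · rintro ⟨y, z⟩ ⟨⟨h1, h2⟩, h3, h4⟩
    simp only at h1 h2 h3 h4
    refine ⟨?_, hx, h1, h3⟩
    have ax : |x| = x := abs_of_pos hx
    have c1 : 0 ≤ k * (y - x) := mul_nonneg k0 (by linarith)
    rcases le_total y (x + θ) with g | g
    · exact hK.low2 (hK.low3 a4 (by linarith) (by linarith)) (by linarith) g
    · have := hK.mv23 (d := y - (x + θ)) a4 (by linarith) (by linarith)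
      rw [add_sub_cancel] at this
      refine hK.low3 this (by linarith) ?_
      nlinarith

/-- The integral of the slices over an interval. -/
noncomputable def slab (K : Set R3) (p q : ℝ) : ENNReal :=
  ∫⁻ x in Ioo p q, volume (Prod.mk x ⁻¹' part K)

theorem slab_ge {K : Set R3} (hK : Td K) {l p q : ℝ} (hl0 : 0 ≤ l) (hl : l ≤ 41 / 100)
    (hp : 0 ≤ p) (hpq : p ≤ q) {G : ℝ → ℝ} (hc : Continuous G)
    (h : ∀ x ∈ Ioo p q, 0 ≤ G x ∧ Sl K l x (G x)) :
    ENNReal.ofReal (∫ x in p..q, G x ^ 2 / 2) ≤ slab K p q := by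
  rw [← lint_Ioo (by fun_prop) hpq fun x _ => by positivity]
  exact setLIntegral_mono' measurableSet_Ioo fun x hx =>
    slice_ge hK hl0 hl (hp.trans_lt hx.1) (h x hx).1 (h x hx).2

theorem slab_lin {K : Set R3} (hK : Td K) {l p q G G' : ℝ} (hl0 : 0 ≤ l) (hl : l ≤ 41 / 100)
    (hp : 0 ≤ p) (hpq : p ≤ q) (h0 : 0 ≤ G) (h0' : 0 ≤ G') (h : Sl K l p G) (h' : Sl K l q G') :
    ENNReal.ofReal ((q - p) * (G ^ 2 + G * G' + G' ^ 2) / 6) ≤ slab K p q := by
  rcases hpq.eq_or_lt with rfl | e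
  · simp
  have e' : 0 < q - p := by linarith
  refine le_trans (le_of_eq ?_) (slab_ge hK hl0 hl hp hpq
    (G := fun x => G + (x - p) / (q - p) * (G' - G)) (by fun_prop) fun x hx => ?_)
  · congr 1
    obtain ⟨k, hk⟩ : ∃ k, k = (G' - G) / (q - p) := ⟨_, rfl⟩
    have hk' : G' = G + k * (q - p) := by rw [hk]; field_simp; ring
    have := int_poly 3 (fun i => ([(G - k * p) ^ 2 / 2, (G - k * p) * k, k ^ 2 / 2] :
      List ℝ).getD i 0) p q
    rw [show (fun x : ℝ => (G + (x - p) / (q - p) * (G' - G)) ^ 2 / 2) = fun x =>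
      ∑ i ∈ Finset.range 3, ([(G - k * p) ^ 2 / 2, (G - k * p) * k, k ^ 2 / 2] :
        List ℝ).getD i 0 * x ^ i by
        funext x
        rw [show (x - p) / (q - p) * (G' - G) = k * (x - p) by rw [hk]; ring]
        simp [Finset.sum_range_succ]; ring, this, hk']
    simp [Finset.sum_range_succ]
    ring
  · have t0 : 0 ≤ (x - p) / (q - p) := div_nonneg (by linarith [hx.1]) e'.le
    have t1 : (x - p) / (q - p) ≤ 1 := (div_le_one e').2 (by linarith [hx.2])
    refine ⟨by nlinarith, ?_⟩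
    have := h.comb hK h' t0 t1
    rwa [div_mul_cancel₀ _ e'.ne', add_sub_cancel] at this

theorem slab_add {K : Set R3} (hc : IsClosed K) (p q : ℝ) :
    slab K 0 p + slab K p q ≤ volume (part K) := by
  rw [Measure.volume_eq_prod, Measure.prod_apply (part_meas hc), slab, slab,
    ← lintegral_union measurableSet_Ioo (Set.disjoint_left.2 fun x h h' => lt_asymm h.2 h'.1)]
  exact setLIntegral_le_lintegral _ _

theorem tri3_vol {A : Set R3} (mA : MeasurableSet A)
    (hA : ∀ x y z : ℝ, (x, y, z) ∈ A → x < y ∧ x < z) : volume (tri3 A) = 3 * volume A := by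
  have m1 := mp_cyc.measurable mA
  have m2 := mp_cyc.measurable m1
  unfold tri3
  rw [measure_union _ m2, measure_union _ m1, mp_cyc.measure_preimage m1.nullMeasurableSet,
    mp_cyc.measure_preimage mA.nullMeasurableSet]
  · ring
  · rw [Set.disjoint_left]
    rintro ⟨x, y, z⟩ h h'
    have a1 := hA _ _ _ h
    have a2 := hA _ _ _ h'
    simp only at a2
    linarith [a1.1, a2.2]
  · rw [Set.disjoint_left]
    rintro ⟨x, y, z⟩ (h | h) h'
    · have a1 := hA _ _ _ h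
      have a2 := hA _ _ _ h'
      simp only [cyc] at a2
      linarith [a1.2, a2.1]
    · have a1 := hA _ _ _ h
      have a2 := hA _ _ _ h'
      simp only [cyc] at a1 a2
      linarith [a1.1, a2.2]

theorem vol_ge {K : Set R3} (hK : Td K) (hc : IsClosed K) {u v u' v' p q p' q' : ℝ} (hu : 0 ≤ u)
    (hv : 0 ≤ v) (hu' : 0 ≤ u') (hv' : 0 ≤ v') (h1 : ENNReal.ofReal u ≤ slab K 0 p)
    (h2 : ENNReal.ofReal v ≤ slab K p q) (h3 : ENNReal.ofReal u' ≤ slab (-K) 0 p')
    (h4 : ENNReal.ofReal v' ≤ slab (-K) p' q') :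
    ENNReal.ofReal (12 * (u + v) + 12 * (u' + v')) ≤ volume K := by
  have m := part_meas hc.neg
  have m1 := mp_cyc.measurable m
  have hl := lower hK.sym (part_meas hc) (B := tri3 (part (-K)))
    ((m.union m1).union (mp_cyc.measurable m1)) (fun x y z h => h) (by
      rintro x y z ((h | h) | h)
      · exact ⟨h.1, h.2.1, h.2.1.trans h.2.2.1, h.2.1.trans h.2.2.2⟩
      · exact ⟨hK.neg.sym.cyc _ _ _ (hK.neg.sym.cyc _ _ _ h.1), h.2.1.trans h.2.2.2, h.2.1,
          h.2.1.trans h.2.2.1⟩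
      · exact ⟨hK.neg.sym.cyc _ _ _ h.1, h.2.1.trans h.2.2.1, h.2.1.trans h.2.2.2, h.2.1⟩)
  rw [tri3_vol m fun x y z h => h.2.2, ← mul_assoc, show (4 * 3 : ENNReal) = 12 by norm_num] at hl
  refine le_trans ?_ hl
  rw [ENNReal.ofReal_add (by positivity) (by positivity), ENNReal.ofReal_mul (by norm_num),
    ENNReal.ofReal_mul (by norm_num), ENNReal.ofReal_add hu hv, ENNReal.ofReal_add hu' hv',
    ENNReal.ofReal_ofNat]
  gcongr
  · exact (add_le_add h1 h2).trans (slab_add hc _ _)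
  · exact (add_le_add h3 h4).trans (slab_add hc.neg _ _)

end Pool.Agent.MP_1e9c11_gt.H69
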