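import Pool.Agent.MP_1e9c11_gt.H69.Slice
import Pool.Agent.MP_1e9c11_gt.H69.Defs

/-! Reduction of a symmetric body of width one to a profile function. -/

open MeasureTheory Set

namespace Pool.Agent.MP_1e9c11_gt.H69

open Pool.Agent.MP_1e9c11_gt.H81

/-- There is a unit chord in every direction. -/
def Ch (K : Set R3) : Prop :=
  ∀ A B C : ℝ, A ^ 2 + B ^ 2 + C ^ 2 = 1 → ∃ x y z : ℝ, (x, y, z) ∈ K ∧ (x - A, y - B, z - C) ∈ K

theorem Ch.neg {K : Set R3} (h : Ch K) : Ch (-K) := fun A B C e => by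
  obtain ⟨x, y, z, h1, h2⟩ := h (-A) (-B) (-C) (by linarith)
  refine ⟨-x, -y, -z, by simpa using h1, ?_⟩
  rw [Set.mem_neg]
  convert h2 using 2
  · simp only [Prod.fst_neg]; ring
  · simp only [Prod.neg_mk]; congr 1 <;> ring

theorem Ch.ne {K : Set R3} (h : Ch K) : K.Nonempty := by
  obtain ⟨x, y, z, h1, -⟩ := h 1 0 0 (by norm_num)
  exact ⟨_, h1⟩

theorem cc_sq {s t : ℝ} (h : 2 * s ^ 2 + 2 * t ^ 2 ≤ 1) : cc s t ^ 2 = 1 - 2 * s ^ 2 - 2 * t ^ 2 :=
  Real.sq_sqrt (by linarith)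

/-- The effective height of the edge. -/
noncomputable def ridge (K : Set R3) (l s : ℝ) : ℝ :=
  sSup ((fun p : R3 => p.2.2 + l * p.2.1 - l * max p.1 s) '' K)

section

variable {K : Set R3} (hc : IsCompact K) {l s t x y z : ℝ}
include hc

theorem ridge_ge (h : (x, y, z) ∈ K) (l s : ℝ) : z + l * y - l * max x s ≤ ridge K l s :=
  le_csSup (hc.image (by fun_prop)).bddAbove ⟨_, h, rfl⟩

theorem ridge_mem (hne : K.Nonempty) (l s : ℝ) :
    ∃ x y z : ℝ, (x, y, z) ∈ K ∧ ridge K l s = z + l * y - l * max x s := by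
  obtain ⟨⟨x, y, z⟩, h1, h2⟩ := (hc.image (f := fun p : R3 => p.2.2 + l * p.2.1 - l * max p.1 s)
    (by fun_prop)).sSup_mem (hne.image _)
  exact ⟨x, y, z, h1, h2.symm⟩

theorem ridge_anti (hne : K.Nonempty) (hl : 0 ≤ l) (h : s ≤ t) : ridge K l t ≤ ridge K l s := by
  obtain ⟨x, y, z, h1, h2⟩ := ridge_mem hc hne l t
  have := ridge_ge hc h1 l s
  have h3 : l * max x s ≤ l * max x t := by gcongr
  linarith

theorem ridge_cont (hne : K.Nonempty) (hl : 0 ≤ l) : Continuous (ridge K l) := by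
  refine (LipschitzWith.of_le_add_mul ⟨l, hl⟩ fun s t => ?_).continuous
  obtain ⟨x, y, z, h1, h2⟩ := ridge_mem hc hne l s
  have := ridge_ge hc h1 l t
  have h3 : l * max x t ≤ l * (max x s + dist s t) := by
    refine mul_le_mul_of_nonneg_left (max_le ?_ ?_) hl
    · linarith [le_max_left x s, dist_nonneg (x := s) (y := t)]
    · rw [Real.dist_eq]
      linarith [le_max_right x s, neg_abs_le (s - t)]
  change _ ≤ _ + l * dist s t
  linarith

theorem ridge_pair (hK : Td K) (hh : Ch K) (hl : 0 ≤ l) (h : 2 * s ^ 2 + 2 * t ^ 2 ≤ 1) :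
    cc s t ≤ ridge K l s + ridge K l t := by
  obtain ⟨x, y, z, h1, h2⟩ := hh (s + t) (s - t) (cc s t) (by rw [cc_sq h]; ring)
  have h3 := hK.sym.flip3 _ _ _ h2
  have a1 := ridge_ge hc h1 l s
  have a2 := ridge_ge hc (hK.swap _ _ _ h1) l s
  have b1 := ridge_ge hc h3 l t
  have b2 := ridge_ge hc (hK.swap _ _ _ h3) l t
  have key : ∀ u v u' v' : ℝ, 0 ≤ v - u + (v' - u') → 0 ≤ v - u + (v' - t) →
      0 ≤ v - s + (v' - u') → 0 ≤ v - s + (v' - t) ∨ v - u ≤ v - s ∨ v' - u' ≤ v' - t →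
      0 ≤ l * (v - max u s + (v' - max u' t)) := by
    intro u v u' v' c1 c2 c3 c4
    refine mul_nonneg hl ?_
    rcases le_total u s with g | g <;> rcases le_total u' t with g' | g' <;>
      simp only [max_eq_left, max_eq_right, g, g'] <;> rcases c4 with c | c | c <;> linarith
  rcases le_total x y with g | g <;> rcases le_total (-(x - (s + t))) (y - (s - t)) with g' | g'
  · have := key x y (-(x - (s + t))) (y - (s - t)) (by linarith) (by linarith) (by linarith)
      (Or.inl (by linarith))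
    linarith
  · have := key x y (y - (s - t)) (-(x - (s + t))) (by linarith) (by linarith) (by linarith)
      (Or.inl (by linarith))
    linarith
  · have := key y x (-(x - (s + t))) (y - (s - t)) (by linarith) (by linarith) (by linarith)
      (Or.inl (by linarith))
    linarith
  · have := key y x (y - (s - t)) (-(x - (s + t))) (by linarith) (by linarith) (by linarith)
      (Or.inl (by linarith))
    linarith

theorem ridge_sl (hK : Td K) (hne : K.Nonempty) (hl : 0 < l) (hl1 : l < 1) {a G : ℝ}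
    (ha : (a, a, a) ∈ K) (hs : 0 ≤ s) (hsa : s ≤ a) (h1 : G ≤ ridge K l s - s)
    (h2 : G + (1 + l) * s ≤ (1 + l) * a) : Sl K l s G := by
  obtain ⟨x, y, z, hm, e⟩ := ridge_mem hc hne l s
  have d1 : x ≤ y := by
    by_contra g
    have := ridge_ge hc (hK.swap _ _ _ hm) l s
    have g1 : l * max y s ≤ l * max x s := by gcongr; linarith
    have g2 : l * y < l * x := by gcongr; linarith
    linarith
  have d2 : 0 ≤ x + y := by
    by_contra g
    have := ridge_ge hc (hK.sym.flip _ _ _ (hK.swap _ _ _ hm)) l s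
    rw [max_eq_right (by linarith : x ≤ s)] at e
    have g1 : max (-y) s < s - x - y := max_lt (by linarith) (by linarith)
    have g2 : l * max (-y) s < l * (s - x - y) := by gcongr
    linarith
  have d3 : y ≤ z := by
    have := ridge_ge hc (hK.swap23 hm) l s
    by_contra g
    nlinarith
  rcases le_total s x with g | g
  · rw [max_eq_left g] at e
    refine ⟨y - x, z - s, by linarith, by linarith, by linarith, ?_⟩
    convert hK.mv12 (d := x - s) hm (by linarith) (by linarith) using 2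
    · ring
    · congr 1 <;> ring
  · rw [max_eq_right g] at e
    rcases (g.trans hsa).eq_or_lt with e' | e'
    · obtain rfl : s = x := by linarith
      refine ⟨y - s, z - s, by linarith, by linarith, by linarith, by simpa using hm⟩
    have e'' : 0 < a - x := by linarith
    have t0 : 0 ≤ (s - x) / (a - x) := div_nonneg (by linarith) e''.le
    have t1 : (s - x) / (a - x) ≤ 1 := (div_le_one e'').2 (by linarith)
    have ht : (s - x) / (a - x) * (a - x) = s - x := by field_simp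
    generalize (s - x) / (a - x) = t at t0 t1 ht
    refine ⟨(1 - t) * (y - x), (1 - t) * (z - x), mul_nonneg (by linarith) (by linarith),
      mul_le_mul_of_nonneg_left (by linarith) (by linarith), ?_, ?_⟩
    · have c1 : 0 ≤ (1 - t) * (z + l * y - (G + (1 + l) * s)) :=
        mul_nonneg (by linarith) (by linarith)
      have c2 : 0 ≤ t * ((1 + l) * a - (G + (1 + l) * s)) := mul_nonneg t0 (by linarith)
      have c3 : (1 + l) * (t * (a - x)) = (1 + l) * (s - x) := by rw [ht]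
      nlinarith
    · convert hK.comb hm ha t0 t1 using 2
      · linarith
      · congr 1 <;> linarith

end

theorem far_ineq {h z u v a r : ℝ} (h1 : 1 / 2 ≤ h) (h2 : h ≤ 5085 / 10000) (z1 : z ≤ h)
    (z2 : 161 / 163 - z ≤ h) (hu : 0 ≤ u) (hv : 0 ≤ v) (huv : u + v = 18 / 163)
    (ha : a = 4004 / 10000) (hr : r = 17695 / 100000) :
    2985 / 10000 ≤ 2 * u * h * (h + (z - u)) + 2 * a * (z - u) ^ 2 +
      2 * v * h * (h + (161 / 163 - z - v)) + 2 * r * (161 / 163 - z - v) ^ 2 := by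
  obtain rfl : u = 18 / 163 - v := by linarith
  obtain ⟨e, rfl⟩ : ∃ e, h = 1 / 2 + e := ⟨h - 1 / 2, by ring⟩
  obtain ⟨w, rfl⟩ : ∃ w, z = 161 / 163 - (1 / 2 + e) + w := ⟨z - 161 / 163 + (1 / 2 + e), by ring⟩
  subst ha hr
  have e0 : 0 ≤ e := by linarith
  have e1 : e ≤ 85 / 10000 := by linarith
  have w0 : 0 ≤ w := by linarith
  have w1 : w ≤ 3 / 100 := by linarith
  have v1 : v ≤ 18 / 163 := by linarith
  have p1 : e * v ≤ 85 / 10000 * v := by gcongr
  have p2 : e * w ≤ 85 / 10000 * w := by gcongr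
  have p3 : v * v ≤ 18 / 163 * v := by gcongr
  have p4 : w * v ≤ 3 / 100 * v := by gcongr
  have p5 : e * (v * v) ≤ 85 / 10000 * (v * v) := by gcongr
  have p6 : e * (w * v) ≤ 85 / 10000 * (w * v) := by gcongr
  have p7 : e * (e * v) ≤ 85 / 10000 * (e * v) := by gcongr
  have q1 : 0 ≤ e * v := by positivity
  have q2 : 0 ≤ e * w := by positivity
  have q3 : 0 ≤ w * v := by positivity
  have q4 : 0 ≤ e * (e * v) := by positivity
  nlinarith [sq_nonneg e, sq_nonneg w, sq_nonneg v]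

theorem sqrt3_ge : (17320508 / 10000000 : ℝ) ≤ Real.sqrt 3 := Real.le_sqrt_of_sq_le (by norm_num)

theorem sqrt3_le : Real.sqrt 3 ≤ (17320509 / 10000000 : ℝ) :=
  Real.sqrt_le_iff.2 ⟨by norm_num, by norm_num⟩

theorem exists_vertex {K : Set R3} (hK : Td K) (hc : IsCompact K) (hne : K.Nonempty) :
    ∃ a : ℝ, (a, a, a) ∈ K ∧ ∀ x y z : ℝ, (x, y, z) ∈ K → x + y + z ≤ 3 * a := by
  obtain ⟨⟨x, y, z⟩, h1, h2⟩ := hc.exists_isMaxOn hne
    (f := fun p : R3 => p.1 + p.2.1 + p.2.2) (by fun_prop)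
  refine ⟨_, hK.cen h1, fun x' y' z' h => ?_⟩
  have : x' + y' + z' ≤ x + y + z := h2 h
  linarith

theorem vertex_sum {K : Set R3} (hh : Ch K) {a r : ℝ}
    (ha : ∀ x y z : ℝ, (x, y, z) ∈ K → x + y + z ≤ 3 * a)
    (hr : ∀ x y z : ℝ, (x, y, z) ∈ -K → x + y + z ≤ 3 * r) : Real.sqrt 3 ≤ 3 * a + 3 * r := by
  have e : Real.sqrt 3 ^ 2 = 3 := Real.sq_sqrt (by norm_num)
  obtain ⟨x, y, z, h1, h2⟩ := hh (Real.sqrt 3 / 3) (Real.sqrt 3 / 3) (Real.sqrt 3 / 3)
    (by linarith [div_pow (Real.sqrt 3) 3 2])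
  have a1 := ha _ _ _ h1
  have a2 := hr (-(x - Real.sqrt 3 / 3)) (-(y - Real.sqrt 3 / 3)) (-(z - Real.sqrt 3 / 3))
    (by simpa using h2)
  linarith

theorem slab_cone {K : Set R3} (hK : Td K) {l p a G : ℝ} (hl0 : 0 ≤ l) (hl : l ≤ 41 / 100)
    (hp : 0 ≤ p) (hpa : p ≤ a) (hG : 0 ≤ G) (h : Sl K l p G) (ha : (a, a, a) ∈ K) :
    ENNReal.ofReal ((a - p) * G ^ 2 / 6) ≤ slab K p a := by
  have := slab_lin hK hl0 hl hp hpa hG le_rfl h (by simpa using Sl.thin (l := l) ha le_rfl)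
  simpa using this

theorem crude {K : Set R3} (hK : Td K) (hc : IsClosed K) {a r l : ℝ} (ha : (a, a, a) ∈ K)
    (hr : (r, r, r) ∈ -K) (a0 : 0 ≤ a) (r0 : 0 ≤ r) (hs : Real.sqrt 3 ≤ 3 * a + 3 * r)
    (hl0 : 0 ≤ l) (hl : l ≤ 41 / 100) (h : Sl K l 0 (5085 / 10000)) :
    ENNReal.ofReal (2985 / 10000) ≤ volume K := by
  refine le_trans (ENNReal.ofReal_le_ofReal ?_) (vol_ge hK hc (p := 0) (p' := 0) le_rfl
    (by positivity) le_rfl (by positivity) (by simp)
    (slab_cone hK hl0 hl le_rfl a0 (by norm_num) h ha) (by simp)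
    (slab_cone hK.neg hl0 hl le_rfl r0 (by norm_num) (h.neg hK) hr))
  linarith [sqrt3_ge]

theorem far {K : Set R3} (hK : Td K) (hc : IsCompact K) (hh : Ch K) {a r : ℝ} (ha : (a, a, a) ∈ K)
    (hr : (r, r, r) ∈ -K) (hs : Real.sqrt 3 ≤ 3 * a + 3 * r) (har : r ≤ a)
    (ha1 : a ≤ 4004 / 10000) : ENNReal.ofReal (2985 / 10000) ≤ volume K := by
  have s3 := sqrt3_ge
  obtain ⟨x0, y0, h, hm, e⟩ := ridge_mem hc hh.ne 0 0
  have hmax : ∀ x y z : ℝ, (x, y, z) ∈ K → z ≤ h := fun x y z g => by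
    have := ridge_ge hc g 0 0
    linarith
  have h1 : 1 / 2 ≤ h := by
    have := ridge_pair hc hK hh (l := 0) (s := 0) (t := 0) le_rfl (by norm_num)
    rw [show cc 0 0 = 1 by simp [cc]] at this
    linarith
  have ht : Sl K 0 0 h := by simpa using Sl.thin (l := 0) (hK.top hm) (by linarith)
  rcases le_total (5085 / 10000) h with h2 | h2
  · obtain ⟨θ, X, a1, a2, a3, a4⟩ := ht
    exact crude hK hc.isClosed ha hr (by linarith) (by linarith) hs le_rfl (by norm_num)
      ⟨θ, X, a1, a2, by linarith, a4⟩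
  obtain ⟨x, y, z, c1, c2⟩ := hh (18 / 163) (18 / 163) (161 / 163) (by norm_num)
  have d1 := hK.mid c1
  have d2 : (18 / 163 - (x + y) / 2, 18 / 163 - (x + y) / 2, 161 / 163 - z) ∈ -K := by
    rw [Set.mem_neg]
    convert hK.mid c2 using 2
    · simp only [Prod.fst_neg]; ring
    · simp only [Prod.neg_mk]; congr 1 <;> ring
  generalize (x + y) / 2 = m at d1 d2
  have z1 := hmax _ _ _ d1
  have z2 : 161 / 163 - z ≤ h := by
    have := hmax _ _ _ (hK.sym.flip2 _ _ _ d2)
    linarith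
  obtain ⟨u, u0, u1, u2, u3⟩ : ∃ u : ℝ, 0 ≤ u ∧ u ≤ 18 / 163 ∧ |u| ≤ |m| ∧
      |18 / 163 - u| ≤ |18 / 163 - m| := by
    rcases le_total m 0 with g | g
    · refine ⟨0, le_rfl, by norm_num, by simp, ?_⟩
      rw [abs_of_nonneg (by norm_num), abs_of_nonneg (by linarith)]
      linarith
    rcases le_total m (18 / 163) with g' | g'
    · exact ⟨m, g, g', le_rfl, le_rfl⟩
    · refine ⟨18 / 163, by norm_num, le_rfl, ?_, by simp⟩
      rw [abs_of_nonneg (by norm_num), abs_of_nonneg g]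
      exact g'
  have e1 := Sl.thin (l := 0) (hK.diag d1 u2) (by linarith)
  have e2 := Sl.thin (l := 0) (hK.neg.diag d2 u3) (by linarith)
  obtain ⟨v, hv⟩ : ∃ v, v = 18 / 163 - u := ⟨_, rfl⟩
  rw [← hv] at e2
  have g0 : 0 ≤ z - u := by linarith
  have g1 : 0 ≤ 161 / 163 - z - v := by linarith
  have v0 : 0 ≤ v := by linarith
  have h0 : 0 ≤ h := by linarith
  have au : 0 ≤ a - u := by linarith
  have rv : 0 ≤ r - v := by linarith
  refine le_trans (ENNReal.ofReal_le_ofReal ?_) (vol_ge hK hc.isClosed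
    (by rw [sub_zero]; positivity) (by positivity) (by rw [sub_zero]; positivity) (by positivity)
    (slab_lin hK le_rfl (by norm_num) le_rfl u0 h0 g0 ht e1)
    (slab_cone hK le_rfl (by norm_num) u0 (by linarith) g0 e1 ha)
    (slab_lin hK.neg le_rfl (by norm_num) le_rfl v0 h0 g1 (ht.neg hK) e2)
    (slab_cone hK.neg le_rfl (by norm_num) v0 (by linarith) g1 e2 hr))
  have i1 := far_ineq h1 h2 z1 z2 u0 v0 (by linarith) rfl rfl
  have i2 := far_ineq (z := 161 / 163 - z) h1 h2 z2 (by linarith) v0 u0 (by linarith) rfl rfl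
  rw [show 161 / 163 - (161 / 163 - z) = z by ring] at i2
  generalize z - u = g at *
  generalize 161 / 163 - z - v = g' at *
  rcases le_total (g ^ 2) (g' ^ 2) with k | k
  · have k1 := mul_nonneg (sub_nonneg.2 k) (sub_nonneg.2 ha1)
    have k2 := mul_nonneg (sq_nonneg g') (show 0 ≤ a + r - 57735 / 100000 by linarith)
    nlinarith
  · have k1 := mul_nonneg (sub_nonneg.2 k) (show 0 ≤ a - 17695 / 100000 by linarith)
    have k2 := mul_nonneg (sq_nonneg g') (show 0 ≤ a + r - 57735 / 100000 by linarith)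
    nlinarith

theorem star {K : Set R3} (hK : Td K) (hc : IsCompact K) (hh : Ch K) {a r l s : ℝ}
    (ha : (a, a, a) ∈ K) (hr : (r, r, r) ∈ -K)
    (rmax : ∀ x y z : ℝ, (x, y, z) ∈ -K → x + y + z ≤ 3 * r) (hs : Real.sqrt 3 ≤ 3 * a + 3 * r)
    (har : r ≤ a) (hl0 : 2 / 5 ≤ l) (hl : l ≤ 41 / 100) (s0 : 0 ≤ s) (s1 : s ≤ 13 / 100) :
    ENNReal.ofReal (2985 / 10000) ≤ volume K ∨
      (ridge K l 0 ≤ 5085 / 10000 ∧ ridge K l 0 ≤ 3 * r ∧ s ≤ ridge K l s ∧
        (∀ x ∈ Icc 0 s, Sl K l x (ridge K l x - x)) ∧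
        ENNReal.ofReal (2 * r * ridge K l 0 ^ 2 + 6 * (∫ x in (0 : ℝ)..s, (ridge K l x - x) ^ 2) +
          2 * (a - s) * (ridge K l s - s) ^ 2) ≤ volume K) := by
  rcases le_total a (4004 / 10000) with ha1 | ha1
  · exact Or.inl (far hK hc hh ha hr hs har ha1)
  have r0 : 0 ≤ r := by
    have := rmax 0 0 _ (hK.mem_neg (x := 0) (by simpa using hK.top ha))
    linarith
  have l0 : 0 ≤ l := by linarith
  rcases le_total (5085 / 10000) (ridge K l 0) with h2 | h2
  · exact Or.inl (crude hK hc.isClosed ha hr (by linarith) r0 hs l0 hl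
      (ridge_sl hc hK hh.ne (by linarith) (by linarith) ha le_rfl (by linarith) (by linarith)
        (by nlinarith)))
  have hsl : ∀ x ∈ Icc 0 s, Sl K l x (ridge K l x - x) := fun x hx => by
    have := ridge_anti hc hh.ne l0 hx.1
    refine ridge_sl hc hK hh.ne (by linarith) (by linarith) ha hx.1 (by linarith [hx.2]) le_rfl ?_
    nlinarith [hx.2]
  have hpos : ∀ x, x ≤ s → 0 ≤ ridge K l x - x := fun x hx => by
    have := ridge_ge hc ha l x
    rw [max_eq_left (by linarith)] at this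
    linarith
  have h0 := hsl 0 ⟨le_rfl, s0⟩
  rw [sub_zero] at h0
  have p0 := hpos 0 s0
  rw [sub_zero] at p0
  have ps := hpos s le_rfl
  have cont := ridge_cont hc hh.ne l0
  refine Or.inr ⟨h2, ?_, by linarith, hsl, ?_⟩
  · obtain ⟨θ, X, a1, a2, a3, a4⟩ := h0.neg hK
    have := rmax _ _ _ a4
    nlinarith
  · have as : 0 ≤ a - s := by linarith
    refine le_trans (le_of_eq ?_) (vol_ge hK hc.isClosed (p' := 0)
      (intervalIntegral.integral_nonneg s0 fun x _ => by positivity) (by positivity) le_rfl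
      (by rw [sub_zero]; positivity)
      (slab_ge hK l0 hl le_rfl s0 (G := fun x => ridge K l x - x) (by fun_prop)
        fun x hx => ⟨hpos x hx.2.le, hsl x (Ioo_subset_Icc_self hx)⟩)
      (slab_cone hK l0 hl s0 (by linarith) ps (hsl s ⟨s0, le_rfl⟩) ha) (by simp)
      (slab_cone hK.neg l0 hl le_rfl r0 p0 (h0.neg hK) hr))
    rw [intervalIntegral.integral_div]
    congr 1
    ring

end Pool.Agent.MP_1e9c11_gt.H69
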