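import Pool.Agent.MP_1e9c11_gt.H69.Main

/-! A numerical lower bound for the volume of the optimal body. -/

open MeasureTheory Set

namespace Pool.Agent.MP_1e9c11_gt.H69

open Pool.Agent.MP_1e9c11_gt.H81

theorem Z1_le {x : ℝ} (h0 : 0 ≤ x) (h1 : x ≤ 253 / 2000) : Z1 x + 1 / 2 ≤ cc x 0 := by
  refine Real.le_sqrt_of_sq_le ?_
  unfold Z1
  have h2 : x ^ 2 ≤ 1 / 50 := by nlinarith
  have e : (1 / 2 - x ^ 2 - x ^ 4 / 2 - x ^ 6 / 2 - x ^ 8 + 1 / 2) ^ 2 = 1 - 2 * x ^ 2 -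
      (x ^ 2) ^ 4 * (3 / 4 - 5 / 2 * x ^ 2 - 5 / 4 * (x ^ 2) ^ 2 - (x ^ 2) ^ 3 - (x ^ 2) ^ 4) := by
    ring
  rw [e]
  have h0' : 0 ≤ x ^ 2 := sq_nonneg x
  generalize x ^ 2 = u at h2 h0'
  have a2 : u ^ 2 ≤ 1 / 50 := by nlinarith
  have a3 : u ^ 3 ≤ 1 / 50 := by nlinarith
  have a4 : u ^ 4 ≤ 1 / 50 := by nlinarith
  have : 0 ≤ u ^ 4 * (3 / 4 - 5 / 2 * u - 5 / 4 * u ^ 2 - u ^ 3 - u ^ 4) :=
    mul_nonneg (by positivity) (by linarith)
  linarith

theorem int_Z1e {e : ℝ} (e0 : 0 ≤ e) : 118779394 / 10000000000 - 55249 / 1000000 * e ≤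
    ∫ x in (0 : ℝ)..253 / 2000, (Z1 x - e - x) ^ 2 / 2 := by
  have c1 : Continuous Z1 := by unfold Z1; fun_prop
  have i1 : IntervalIntegrable (fun x => (Z1 x - id x) ^ 2 / 2) volume 0 (253 / 2000) :=
    Continuous.intervalIntegrable (by fun_prop) _ _
  have i2 : IntervalIntegrable (fun x : ℝ => e * (1 / 2 - x)) volume 0 (253 / 2000) :=
    Continuous.intervalIntegrable (by fun_prop) _ _
  have h := intervalIntegral.integral_mono_on (by norm_num) (i1.sub i2)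
    (g := fun x => (Z1 x - e - x) ^ 2 / 2) (Continuous.intervalIntegrable (by fun_prop) _ _)
    fun x _ => by
      have : Z1 x ≤ 1 / 2 := by
        unfold Z1
        nlinarith [sq_nonneg x, sq_nonneg (x ^ 2), sq_nonneg (x ^ 3), sq_nonneg (x ^ 4)]
      simp only [id]
      nlinarith [mul_nonneg e0 (sub_nonneg.2 this), sq_nonneg e]
  rw [intervalIntegral.integral_sub i1 i2, intervalIntegral.integral_const_mul,
    intervalIntegral.integral_sub (by simp) (by simp)] at h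
  simp only [intervalIntegral.integral_const, smul_eq_mul, integral_id] at h
  linarith [int_Z1]

namespace Profile.Solves

variable {P : Profile} (hP : P.Solves)
include hP

theorem sq_le_aux {x : ℝ} (hx : x ∈ Icc 0 P.b) (h : x ≤ P.T x) : x ^ 2 + P.T x ^ 2 ≤ P.b ^ 2 := by
  have := le_of_deriv (g := fun z => -(z ^ 2 + P.T z ^ 2))
    (fun z hz => ((hasDerivAt_pow 2 z).hasDerivWithinAt.add ((hP.T_deriv z hz).pow 2)).neg)
    le_rfl hx.1 hx.2 fun z hz => by
      have hz' : z ∈ Icc 0 P.b := ⟨hz.1.le, hz.2.le.trans hx.2⟩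
      have t := hP.T_mem z hz'
      have a1 : z ≤ P.T z := by linarith [hz.2, hP.T_anti hz'.1 hz.2.le hx.2]
      have a2 := hP.f_anti hz'.1 a1 t.2
      have a3 := hP.g_ge (hP.sub t)
      have a4 : 1 ≤ (P.f z - z) / (P.f (P.T z) - P.T z) := by
        rw [le_div_iff₀ (by linarith)]
        linarith
      rw [neg_div]
      norm_num
      nlinarith [t.1]
  simp only [hP.T_zero] at this
  linarith

theorem h_le' : P.f 0 ≤ 1 / 2 + 74 / 1000000 := by
  have c0 : 98295 / 100000 ≤ cc P.b 0 :=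
    Real.le_sqrt_of_sq_le (by nlinarith [hP.b_pos, hP.b1])
  have c1 : cc P.b 0 ≤ 1 := Real.sqrt_le_one.2 (by nlinarith)
  have c2 := cc_sq (s := P.b) (t := 0) (by nlinarith [hP.b_pos, hP.b1])
  have h := hP.h_aux (c := cc P.b 0) (by linarith) fun x hx => cc_le (by
    rcases le_total x (P.T x) with g | g
    · linarith [hP.sq_le_aux hx g]
    · have := hP.sq_le_aux (hP.T_mem x hx) (by rwa [hP.T_T x hx])
      rw [hP.T_T x hx] at this
      linarith)
  have : P.b ^ 2 / cc P.b 0 ≤ 1 + 148 / 1000000 - cc P.b 0 := by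
    rw [div_le_iff₀ (by linarith)]
    nlinarith
  linarith

theorem column {x : ℝ} (x0 : 0 ≤ x) (x1 : x ≤ 253 / 2000) :
    Sl P.B 0 x (Z1 x - (P.f 0 - 1 / 2) - x) := by
  obtain ⟨z, h1, h2⟩ : ∃ z, (x, x, z) ∈ P.B ∧ cc x 0 - P.f 0 ≤ z := by
    rcases le_total x P.s with g | g
    · refine ⟨_, B_curve P ⟨x0, g⟩, ?_⟩
      rcases le_total x P.b with g' | g'
      · linarith [hP.pair ⟨x0, g'⟩ hP.mem0]
      · exact (hP.arc x ⟨g', g⟩).ge
    · refine ⟨_, hP.seg_mem g (by linarith [hP.a_ge]), ?_⟩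
      linarith [arc_tan (x := x) (by nlinarith) hP.s0 hP.s_le, hP.tan_vertex,
        hP.arc _ ⟨hP.b_le, le_rfl⟩]
  have := cc_ge' x0 (by linarith)
  exact ⟨0, z - x, le_rfl, by linarith [hP.h_le], by linarith [Z1_le x0 x1], by simpa using h1⟩

theorem body_ge : ENNReal.ofReal (2984 / 10000) ≤ volume P.body := by
  rw [← vol_pre (body_closed P)]
  have hK := B_td P
  have c1 : Continuous Z1 := by unfold Z1; fun_prop
  have e0 := hP.h_ge
  have e1 := hP.h_le'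
  have a0 := hP.a_ge
  have pos : ∀ x, 0 ≤ x → x ≤ 253 / 2000 → 0 ≤ Z1 x - (P.f 0 - 1 / 2) - x := fun x x0 x1 => by
    unfold Z1
    have h2 : x ^ 2 ≤ 1 / 50 := by nlinarith
    have h4 : x ^ 4 ≤ 1 / 50 := by nlinarith [sq_nonneg (x ^ 2)]
    have h6 : x ^ 6 ≤ 1 / 50 := by nlinarith [sq_nonneg x, sq_nonneg (x ^ 2), sq_nonneg (x ^ 3)]
    have h8 : x ^ 8 ≤ 1 / 50 := by nlinarith [sq_nonneg (x ^ 2), sq_nonneg (x ^ 4)]
    linarith
  have m0 := B_curve P (x := 0) ⟨le_rfl, hP.s0⟩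
  have m1 : (0, 0, P.f 0) ∈ -P.B := hK.mem_neg (by simpa using m0)
  have i := int_Z1e (e := P.f 0 - 1 / 2) (by linarith)
  refine le_trans (ENNReal.ofReal_le_ofReal ?_) (vol_ge hK (B_closed P) (p' := 0)
    (intervalIntegral.integral_nonneg (by norm_num) fun x _ => by positivity)
    (div_nonneg (mul_nonneg (by linarith) (sq_nonneg _)) (by norm_num)) le_rfl
    (div_nonneg (mul_nonneg (by linarith) (sq_nonneg _)) (by norm_num))
    (slab_ge hK le_rfl (by norm_num) le_rfl (q := 253 / 2000) (by norm_num)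
      (G := fun x => Z1 x - (P.f 0 - 1 / 2) - x) (by fun_prop)
      fun x hx => ⟨pos x hx.1.le hx.2.le, hP.column hx.1.le hx.2.le⟩)
    (slab_cone hK le_rfl (by norm_num) (by norm_num) (by linarith) (pos _ (by norm_num) le_rfl)
      (hP.column (by norm_num) le_rfl) (B_vertex P)) (by simp)
    (slab_cone hK.neg le_rfl (by norm_num) le_rfl (by linarith) (G := P.f 0) (by linarith)
      (by simpa using Sl.thin (l := 0) m1 (by linarith)) (hK.neg.cen m1)))
  have z : 357367 / 1000000 ≤ Z1 (253 / 2000) - 253 / 2000 := by norm_num [Z1]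
  have ea : 4106836 / 10000000 - (P.f 0 - 1 / 2) / 3 ≤ P.a := by
    unfold Profile.a
    linarith [sqrt3_ge]
  obtain ⟨e, he⟩ : ∃ e, P.f 0 = 1 / 2 + e := ⟨P.f 0 - 1 / 2, by ring⟩
  rw [he] at e0 e1 ea i ⊢
  have k1 : (357367 / 1000000 - e) ^ 2 ≤ (Z1 (253 / 2000) - (1 / 2 + e - 1 / 2) - 253 / 2000) ^ 2 :=
    pow_le_pow_left₀ (by linarith) (by linarith) 2
  have k2 := mul_le_mul (show 2841836 / 10000000 - e / 3 ≤ P.a - 253 / 2000 by linarith) k1
    (sq_nonneg _) (by linarith)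
  have e2 : 0 ≤ e := by linarith
  have k3 : 0 ≤ e ^ 2 * (1 - e) := mul_nonneg (sq_nonneg e) (by linarith)
  nlinarith [sq_nonneg e, pow_nonneg e2 3]

end Profile.Solves

end Pool.Agent.MP_1e9c11_gt.H69
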