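import Pool.Agent.MP_1e9c11_gt.H69.Body

/-! Width and chords. -/

open MeasureTheory Set

namespace Pool.Agent.MP_1e9c11_gt.H69

open Pool.Agent.MP_1e9c11_gt.H81

theorem pre_compact {K : Set E3} (h : IsCompact K) : IsCompact (mk3 ⁻¹' K) := by
  rw [show mk3 ⁻¹' K = co '' K from Set.ext fun r =>
    ⟨fun g => ⟨_, g, rfl⟩, fun ⟨p, g, e⟩ => by rw [← e, mem_preimage, mk3_co]; exact g⟩]
  exact h.image co_cont

theorem chord {K : Set E3} (hK : IsBody K) (hw : HasWidth K 1) {u : E3} (hu : ‖u‖ = 1) :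
    ∃ p ∈ K, p - u ∈ K := by
  obtain ⟨h1, h2, h3⟩ := hK
  have hne : K.Nonempty := h3.mono interior_subset
  have c1 : IsCompact (image2 (· - ·) K K) := by
    rw [← image_prod]
    exact (h1.prod h1).image (by fun_prop)
  have c2 : Convex ℝ (image2 (· - ·) K K) := h2.sub h2
  obtain ⟨d, hd, e⟩ := exists_norm_eq_iInf_of_complete_convex (hne.image2 hne) c1.isComplete c2 u
  have hv := (norm_eq_iInf_iff_real_inner_le_zero c2 hd).1 e
  obtain ⟨p, hp, q, hq, rfl⟩ := hd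
  by_cases g : u - (p - q) = 0
  · exact ⟨p, hp, by rwa [show p - u = q by rw [sub_eq_zero.1 g]; simp]⟩
  generalize hv' : u - (p - q) = v at hv g
  have hn : 0 < ‖v‖ := norm_pos_iff.2 g
  have h4 : 1 ≤ dirWidth K (‖v‖⁻¹ • v) :=
    hw.2 ⟨_, by rw [norm_smul, norm_inv, norm_norm, inv_mul_cancel₀ hn.ne'], rfl⟩
  have hc : IsCompact ((fun x => inner ℝ x (‖v‖⁻¹ • v)) '' K) := h1.image (by fun_prop)
  obtain ⟨x, hx, ex⟩ := hc.sSup_mem (hne.image _)
  obtain ⟨y, hy, ey⟩ := hc.sInf_mem (hne.image _)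
  rw [dirWidth, ← ex, ← ey] at h4
  simp only [inner_smul_right] at h4
  rw [← mul_sub, le_inv_mul_iff₀ hn, mul_one, ← inner_sub_left, real_inner_comm] at h4
  have h5 : inner ℝ v (x - y - (p - q)) ≤ 0 := hv _ ⟨x, hx, y, hy, rfl⟩
  rw [show p - q = u - v by rw [← hv']; simp, inner_sub_right v (x - y), inner_sub_right v u,
    real_inner_self_eq_norm_sq] at h5
  have h6 := real_inner_le_norm v u
  rw [hu] at h6
  nlinarith

theorem ch_of {K : Set E3} (hK : IsBody K) (hw : HasWidth K 1) : Ch (mk3 ⁻¹' K) := by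
  intro A B C e
  obtain ⟨p, h1, h2⟩ := chord hK hw (u := mk3 (A, B, C)) (by
    rw [EuclideanSpace.norm_eq]
    simp [Fin.sum_univ_three, mk3, e])
  refine ⟨p 0, p 1, p 2, by rw [← mk3_co p] at h1; exact h1, ?_⟩
  rw [mem_preimage]
  convert h2 using 1
  ext k
  fin_cases k <;> simp [mk3]

/-- The width in the direction `(A, B, C)` is at least the length of that vector. -/
def Wd (K : Set R3) (A B C : ℝ) : Prop := ∃ p ∈ K, ∃ q ∈ K, Real.sqrt (A ^ 2 + B ^ 2 + C ^ 2) ≤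
  (p.1 * A + p.2.1 * B + p.2.2 * C) - (q.1 * A + q.2.1 * B + q.2.2 * C)

theorem Wd.neg {K : Set R3} {A B C : ℝ} (h : Wd K (-A) (-B) (-C)) : Wd K A B C := by
  obtain ⟨p, hp, q, hq, h⟩ := h
  refine ⟨q, hq, p, hp, ?_⟩
  simp only [neg_sq] at h
  linarith

theorem Wd.cyc {K : Set R3} (hK : Sym K) {A B C : ℝ} (h : Wd K A B C) : Wd K B C A := by
  obtain ⟨p, hp, q, hq, h⟩ := h
  refine ⟨_, hK.cyc _ _ _ hp, _, hK.cyc _ _ _ hq, ?_⟩
  rw [show B ^ 2 + C ^ 2 + A ^ 2 = A ^ 2 + B ^ 2 + C ^ 2 by ring]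
  simp only
  linarith

namespace Profile.Solves

variable {P : Profile} (hP : P.Solves)
include hP

theorem wd_core {A B C : ℝ} (hC : 0 < C) (hA : |A| ≤ C) (hB : |B| ≤ C) : Wd P.B A B C := by
  obtain ⟨a1, a2⟩ := abs_le.1 hA
  obtain ⟨b1, b2⟩ := abs_le.1 hB
  obtain ⟨y, z, y', z', hm, hm', hs⟩ := hP.support (m := |A + B| / C) (n := |A - B| / C)
    (by positivity) (by rw [div_le_iff₀ hC, abs_le]; constructor <;> linarith) (by positivity)
    (by rw [div_le_iff₀ hC, abs_le]; constructor <;> linarith)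
  have h := mul_le_mul_of_nonneg_left hs hC.le
  have e1 : C * Real.sqrt (1 + (|A + B| / C) ^ 2 / 2 + (|A - B| / C) ^ 2 / 2) =
      Real.sqrt (A ^ 2 + B ^ 2 + C ^ 2) := by
    rw [← Real.sqrt_sq hC.le, ← Real.sqrt_mul (sq_nonneg C), Real.sqrt_sq hC.le, div_pow, div_pow,
      sq_abs, sq_abs]
    congr 1
    field_simp
    ring
  have e2 : C * (|A + B| / C * y + z + (|A - B| / C * y' + z')) =
      |A + B| * y + C * z + |A - B| * y' + C * z' := by field_simp; ring
  rw [e1, e2] at h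
  have hK := (B_td P).sym
  rcases abs_cases (A + B) with ⟨e, -⟩ | ⟨e, -⟩ <;> rcases abs_cases (A - B) with ⟨e', -⟩ | ⟨e', -⟩ <;>
    rw [e, e'] at h
  · exact ⟨_, hm, _, hK.flip3 _ _ _ hm', by simp only; linarith⟩
  · exact ⟨_, hm, _, hK.flip2 _ _ _ hm', by simp only; linarith⟩
  · exact ⟨_, hK.flip _ _ _ hm, _, hK.flip3 _ _ _ hm', by simp only; linarith⟩
  · exact ⟨_, hK.flip _ _ _ hm, _, hK.flip2 _ _ _ hm', by simp only; linarith⟩

theorem wd_abs {A B C : ℝ} (hA : |A| ≤ |C|) (hB : |B| ≤ |C|) : Wd P.B A B C := by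
  rcases lt_trichotomy C 0 with h | h | h
  · rw [abs_of_neg h] at hA hB
    exact (hP.wd_core (by linarith) (by rwa [abs_neg]) (by rwa [abs_neg])).neg
  · subst h
    simp only [abs_zero, abs_nonpos_iff] at hA hB
    subst hA hB
    exact ⟨_, B_vertex P, _, B_vertex P, by simp⟩
  · rw [abs_of_pos h] at hA hB
    exact hP.wd_core h hA hB

theorem wd_all (A B C : ℝ) : Wd P.B A B C := by
  have hK := (B_td P).sym
  rcases le_total |A| |B| with h1 | h1 <;> rcases le_total |B| |C| with h2 | h2 <;>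
    rcases le_total |A| |C| with h3 | h3
  all_goals first
    | exact hP.wd_abs (by linarith) (by linarith)
    | exact (hP.wd_abs (A := C) (B := A) (C := B) (by linarith) (by linarith)).cyc hK
    | exact ((hP.wd_abs (A := B) (B := C) (C := A) (by linarith) (by linarith)).cyc hK).cyc hK

theorem body_compact : IsCompact P.body := by
  rw [show P.body = mk3 '' P.B from Set.ext fun p =>
    ⟨fun g => ⟨co p, by rw [Profile.B, mem_preimage, mk3_co]; exact g, mk3_co p⟩,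
      fun ⟨r, g, e⟩ => e ▸ g⟩]
  exact hP.B_compact.image mk3_cont

theorem small_mem {x y z : ℝ} (hx : |x| ≤ 1 / 10) (hy : |y| ≤ 1 / 10) (hz : |z| ≤ 1 / 10) :
    (x, y, z) ∈ P.B := by
  have hK := B_td P
  have a0 := hP.a_ge
  have h1 : ∀ t : ℝ, |t| ≤ P.a → ((0 : ℝ), (0 : ℝ), t) ∈ P.B := fun t ht => by
    have e1 := hK.top (B_vertex P)
    have e2 := hK.sym.flip2 _ _ _ e1
    obtain ⟨t1, t2⟩ := abs_le.1 ht
    have := hK.move (a := 0) (b := 0) (c := 1) (d := t + P.a) (L := 2 * P.a) e2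
      (by convert e1 using 2; · simp
          · congr 1 <;> ring) (by linarith) (by linarith)
    convert this using 2
    · simp
    · congr 1 <;> ring
  have k : ∀ t : ℝ, |t| ≤ 1 / 10 → |3 * t| ≤ P.a := fun t ht => by
    rw [abs_mul, abs_of_pos (by norm_num : (0 : ℝ) < 3)]
    linarith
  have e1 := hK.comb (hK.swap13 (h1 _ (k x hx))) (hK.swap23 (h1 _ (k y hy))) (t := 1 / 2)
    (by norm_num) (by norm_num)
  have := hK.comb e1 (h1 _ (k z hz)) (t := 1 / 3) (by norm_num) (by norm_num)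
  convert this using 2
  · ring
  · congr 1 <;> ring

theorem body_ball : Metric.ball (0 : E3) (1 / 10) ⊆ P.body := by
  intro p hp
  rw [mem_ball_zero_iff] at hp
  have h := fun i => (PiLp.norm_apply_le p i).trans hp.le
  rw [← mk3_co p]
  exact hP.small_mem (h 0) (h 1) (h 2)

theorem isBody : IsBody P.body :=
  ⟨hP.body_compact, body_convex P,
    ⟨0, interior_maximal hP.body_ball Metric.isOpen_ball (Metric.mem_ball_self (by norm_num))⟩⟩

theorem width_ge (u : E3) (hu : ‖u‖ = 1) : 1 ≤ dirWidth P.body u := by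
  obtain ⟨p, hp, q, hq, h⟩ := hP.wd_all (u 0) (u 1) (u 2)
  have hc : IsCompact ((fun x => inner ℝ x u) '' P.body) := hP.body_compact.image (by fun_prop)
  have e : Real.sqrt (u 0 ^ 2 + u 1 ^ 2 + u 2 ^ 2) = 1 := by
    rw [← hu, EuclideanSpace.norm_eq]
    simp [Fin.sum_univ_three]
  have h1 := le_csSup hc.bddAbove ⟨mk3 p, hp, rfl⟩
  have h2 := csInf_le hc.bddBelow ⟨mk3 q, hq, rfl⟩
  simp only [inner_co] at h1 h2
  unfold dirWidth
  simp only [inner_co]
  change p.1 * u 0 + p.2.1 * u 1 + p.2.2 * u 2 ≤ _ at h1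
  change _ ≤ q.1 * u 0 + q.2.1 * u 1 + q.2.2 * u 2 at h2
  linarith

theorem hasWidth : HasWidth P.body 1 := by
  have e : Real.sqrt 3 ^ 2 = 3 := Real.sq_sqrt (by norm_num)
  have r0 : 0 ≤ Real.sqrt 3 / 3 := by positivity
  have ea : Real.sqrt 3 = 3 * P.a + P.f 0 := by unfold Profile.a; ring
  obtain ⟨k, hk⟩ : ∃ k, k = Real.sqrt 3 / 3 := ⟨_, rfl⟩
  rw [← hk] at r0
  have hn : ‖mk3 (k, k, k)‖ = 1 := by
    rw [EuclideanSpace.norm_eq, Real.sqrt_eq_one]
    simp [Fin.sum_univ_three, mk3]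
    rw [hk]
    linarith [div_pow (Real.sqrt 3) 3 2]
  refine ⟨⟨_, hn, le_antisymm (hP.width_ge _ hn) ?_⟩, ?_⟩
  · have hne : ((fun x => inner ℝ x (mk3 (k, k, k))) '' P.body).Nonempty :=
      ⟨_, _, B_vertex P, rfl⟩
    have h1 : sSup ((fun x => inner ℝ x (mk3 (k, k, k))) '' P.body) ≤ k * (3 * P.a) := by
      refine csSup_le hne ?_
      rintro _ ⟨p, hp, rfl⟩
      have := (hP.sub_vertex (a := co p) (by rw [Profile.B, mem_preimage, mk3_co]; exact hp)).1.1
      simp only [inner_co]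
      change p 0 * k + p 1 * k + p 2 * k ≤ _
      simp only [co] at this
      nlinarith
    have h2 : -(k * P.f 0) ≤ sInf ((fun x => inner ℝ x (mk3 (k, k, k))) '' P.body) := by
      refine le_csInf hne ?_
      rintro _ ⟨p, hp, rfl⟩
      have := (hP.sub_face (a := co p) (by rw [Profile.B, mem_preimage, mk3_co]; exact hp)).1.2.1
      simp only [inner_co]
      change _ ≤ p 0 * k + p 1 * k + p 2 * k
      simp only [co] at this
      nlinarith
    have h3 : k * (3 * P.a) + k * P.f 0 = 1 := by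
      rw [← mul_add, ← ea, hk]
      linarith
    unfold dirWidth
    linarith
  · rintro _ ⟨u, hu, rfl⟩
    exact hP.width_ge u hu

end Profile.Solves

end Pool.Agent.MP_1e9c11_gt.H69
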